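import Mathlib
import Pool.Agent.Y215.CC.Act
import Pool.Agent.N46.CS.Stm

set_option autoImplicit false

/-!
# The reversible component of the center variety (MP_aa1ef7_ag, MP_05b4bd_ag): statements
-/

namespace Pool.Agent.N46.RV

open MvPolynomial Filter Topology
open Pool.Agent.Y215.CC Pool.Agent.N46.CS
open scoped LinearAlgebra.Projectivization

/-- substitution of `(-x, y)` -/
noncomputable def sg (P : MvPolynomial (Fin 2) ℂ) : MvPolynomial (Fin 2) ℂ :=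
  bind₁ ![-X 0, X 1] P

/-- exchange of the two variables -/
noncomputable def sw (P : MvPolynomial (Fin 2) ℂ) : MvPolynomial (Fin 2) ℂ :=
  bind₁ ![X 1, X 0] P

/-- `P dy - Q dx` is reversible: invariant under `(x, y) ↦ (-x, y)` -/
def Rev (P Q : MvPolynomial (Fin 2) ℂ) : Prop := sg P = P ∧ sg Q = -Q

/-- `F` satisfies `F dω = dF ∧ ω` for `ω = P dy - Q dx` -/
def IntF (P Q F : MvPolynomial (Fin 2) ℂ) : Prop :=
  P * pderiv 0 F + Q * pderiv 1 F = (pderiv 0 P + pderiv 1 Q) * F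

/-- `P dy - Q dx` has no nonzero polynomial integrating factor of degree at most `n` -/
def NoInt (n : ℕ) (P Q : MvPolynomial (Fin 2) ℂ) : Prop :=
  ∀ F : MvPolynomial (Fin 2) ℂ, F.totalDegree ≤ n → IntF P Q F → F = 0

/-- the classes of reversible forms -/
def YY (d : ℕ) : Set (ℙ ℂ (Frm d)) :=
  {x | ∃ (w : Frm d) (hw : w ≠ 0), x = Projectivization.mk ℂ w hw ∧ Rev (fP w) (fQ w)}

/-- the classes of forms with a nonzero polynomial integrating factor of degree `≤ d + 1` -/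
def ZZ (d : ℕ) : Set (ℙ ℂ (Frm d)) :=
  {x | ∃ (w : Frm d) (hw : w ≠ 0), x = Projectivization.mk ℂ w hw ∧
    ∃ F : MvPolynomial (Fin 2) ℂ, F ≠ 0 ∧ F.totalDegree ≤ d + 1 ∧ IntF (fP w) (fQ w) F}

/-- RFI: a swap-reversible normalized field has a formal first integral -/
def S_RFI : Prop := ∀ (l : ℂ) (V : Fin 2 → MvPolynomial (Fin 2) ℂ), l ≠ 0 → Nrm l V →
    sw (V 0) = -V 1 → sw (V 1) = -V 0 → CaseA V

/-- RCN: a reduced singular point on the axis of a reversible field is a center -/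
def S_RCN : Prop := ∀ (P Q : MvPolynomial (Fin 2) ℂ) (p : Fin 2 → ℂ), Rev P Q → p 0 = 0 →
    eval p P = 0 →
    eval p (pderiv 0 P * pderiv 1 Q - pderiv 1 P * pderiv 0 Q) ≠ 0 → HasCenterAt P Q p

/-- NIC: a nice reversible form -/
def S_NIC : Prop := ∀ d : ℕ, 2 ≤ d → ∃ w : Frm d, Fol w ∧ Rev (fP w) (fQ w) ∧
    Sng w 0 ∧
    eval 0 (pderiv 0 (fP w) * pderiv 1 (fQ w) - pderiv 1 (fP w) * pderiv 0 (fQ w)) ≠ 0

/-- RPT: the forms near the nice one, along a line of reversible forms, have a center -/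
def S_RPT : Prop := ∀ (d : ℕ), 1 ≤ d → ∀ (w w₁ : Frm d), Rev (fP w) (fQ w) →
    Rev (fP w₁) (fQ w₁) → Sng w₁ 0 →
    eval 0 (pderiv 0 (fP w₁) * pderiv 1 (fQ w₁) - pderiv 1 (fP w₁) * pderiv 0 (fQ w₁)) ≠ 0 →
    ∀ᶠ ε in 𝓝 (0 : ℂ), ∃ p : Fin 2 → ℂ,
      HasCenterAt (fP (w₁ + ε • (w - w₁))) (fQ (w₁ + ε • (w - w₁))) p

/-- RCL: reversible forms belong to the center variety -/
def S_RCL : Prop := ∀ d : ℕ, 2 ≤ d → YY d ⊆ closure (centers d)

/-- RIR: the set of reversible forms is irreducible -/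
def S_RIR : Prop := ∀ d : ℕ, IsIrreducible (YY d)

/-- CMP: an irreducible subset of `M` is contained in an irreducible component of `M` -/
def S_CMP : Prop := ∀ (α : Type) [TopologicalSpace α] (M Y : Set α), IsIrreducible Y → Y ⊆ M →
    ∃ X : Set α, Maximal (fun Z => IsIrreducible Z ∧ Z ⊆ M) X ∧ Y ⊆ X

/-- NOI: an explicit reversible form without integrating factor -/
def S_NOI : Prop := ∀ n : ℕ, NoInt n 1 (2 * X 0 * (X 0 ^ 2 + X 1 ^ 2))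

/-- EXF: the explicit form as a member of `Frm d` -/
def S_EXF : Prop := ∀ d : ℕ, 3 ≤ d → ∃ w : Frm d, w ≠ 0 ∧ fP w = 1 ∧
    fQ w = 2 * X 0 * (X 0 ^ 2 + X 1 ^ 2) ∧ Rev (fP w) (fQ w)

/-- ZOP: the set of forms without integrating factor is open -/
def S_ZOP : Prop := ∀ (d : ℕ) (w : Frm d) (hw : w ≠ 0), NoInt (d + 1) (fP w) (fQ w) →
    ∃ O : Set (ℙ ℂ (Frm d)), IsOpen O ∧ Projectivization.mk ℂ w hw ∈ O ∧ Disjoint O (ZZ d)

/-- the logarithmic forms `f_1 ... f_s ∑ l_i df_i / f_i`, `deg f_i ≤ d_i` -/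
def Log (d s : ℕ) (dd : Fin s → ℕ) : Set (ℙ ℂ (Frm d)) :=
  {x | ∃ (w : Frm d) (hw : w ≠ 0) (f : Fin s → MvPolynomial (Fin 2) ℂ) (l : Fin s → ℂ),
    x = Projectivization.mk ℂ w hw ∧ (∀ i, (f i).totalDegree ≤ dd i) ∧
    fP w = ∑ i, C (l i) * (∏ j ∈ Finset.univ.erase i, f j) * pderiv 1 (f i) ∧
    fQ w = -∑ i, C (l i) * (∏ j ∈ Finset.univ.erase i, f j) * pderiv 0 (f i)}

/-- LOG: logarithmic forms have an integrating factor -/
def S_LOG : Prop := ∀ (d s : ℕ) (dd : Fin s → ℕ), ∑ i, dd i = d + 1 → Log d s dd ⊆ ZZ d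

/-- the forms `p ^ (i + 1) (dp / p + d (q / p ^ i))`, `deg p ≤ 1`, `deg q ≤ d` -/
def AA (d i : ℕ) : Set (ℙ ℂ (Frm d)) :=
  {x | ∃ (w : Frm d) (hw : w ≠ 0) (p q : MvPolynomial (Fin 2) ℂ),
    x = Projectivization.mk ℂ w hw ∧ p ≠ 0 ∧ p.totalDegree ≤ 1 ∧ q.totalDegree ≤ d ∧
    fP w = p ^ i * pderiv 1 p + p * pderiv 1 q - (i : ℕ) * q * pderiv 1 p ∧
    fQ w = -(p ^ i * pderiv 0 p + p * pderiv 0 q - (i : ℕ) * q * pderiv 0 p)}

/-- the forms `q (dq / q + dp)`, `deg p ≤ 1`, `deg q ≤ d` -/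
def BB (d : ℕ) : Set (ℙ ℂ (Frm d)) :=
  {x | ∃ (w : Frm d) (hw : w ≠ 0) (p q : MvPolynomial (Fin 2) ℂ),
    x = Projectivization.mk ℂ w hw ∧ p.totalDegree ≤ 1 ∧ q.totalDegree ≤ d ∧
    fP w = pderiv 1 q + q * pderiv 1 p ∧ fQ w = -(pderiv 0 q + q * pderiv 0 p)}

/-- ABZ: the further candidates have an integrating factor -/
def S_ABZ : Prop := ∀ d : ℕ, 1 ≤ d → (∀ i, i ≤ d → AA d i ⊆ ZZ d) ∧ BB d ⊆ ZZ d

/-- the line `y = m x + m ^ 2` with `m = 2 i - d` -/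
noncomputable def ln (d : ℕ) (i : Fin (d + 1)) : MvPolynomial (Fin 2) ℂ :=
  X 1 - C (2 * (i : ℂ) - d) * X 0 - C ((2 * (i : ℂ) - d) ^ 2)

/-- LIN: a reversible arrangement of lines in general position -/
def S_LIN : Prop := ∀ d : ℕ, 1 ≤ d → sg (∏ i, ln d i) = ∏ i, ln d i ∧
    (∏ i, ln d i).totalDegree = d + 1 ∧
    (∀ i j, i ≠ j → coeff (Finsupp.single 0 1) (ln d i) * coeff (Finsupp.single 1 1) (ln d j) ≠
      coeff (Finsupp.single 0 1) (ln d j) * coeff (Finsupp.single 1 1) (ln d i)) ∧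
    (∀ i j k, i ≠ j → j ≠ k → i ≠ k → ∀ p : Fin 2 → ℂ,
      ¬ (eval p (ln d i) = 0 ∧ eval p (ln d j) = 0 ∧ eval p (ln d k) = 0))

/-- DFF: the differential of a polynomial as a form -/
def S_DFF : Prop := ∀ (d : ℕ) (f : MvPolynomial (Fin 2) ℂ), f.totalDegree ≤ d + 1 →
    1 ≤ f.totalDegree → (∃ w : Frm d, fP w = pderiv 1 f ∧ fQ w = -pderiv 0 f) ∧
    (∀ w : Frm d, fP w = pderiv 1 f → fQ w = -pderiv 0 f → w ≠ 0) ∧
    (sg f = f → Rev (pderiv 1 f) (-pderiv 0 f))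

/-- the Morse polynomial `x ^ 2 + y ^ d + d y` -/
noncomputable def ms (d : ℕ) : MvPolynomial (Fin 2) ℂ := X 0 ^ 2 + X 1 ^ d + C (d : ℂ) * X 1

/-- MOR: it is even, its critical points are non-degenerate with distinct values -/
def S_MOR : Prop := ∀ d : ℕ, 3 ≤ d → sg (ms d) = ms d ∧ (ms d).totalDegree = d ∧
    (∀ p : Fin 2 → ℂ, eval p (pderiv 0 (ms d)) = 0 → eval p (pderiv 1 (ms d)) = 0 →
      eval p (pderiv 0 (pderiv 0 (ms d)) * pderiv 1 (pderiv 1 (ms d)) -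
        pderiv 0 (pderiv 1 (ms d)) * pderiv 1 (pderiv 0 (ms d))) ≠ 0) ∧
    (∀ p q : Fin 2 → ℂ, eval p (pderiv 0 (ms d)) = 0 → eval p (pderiv 1 (ms d)) = 0 →
      eval q (pderiv 0 (ms d)) = 0 → eval q (pderiv 1 (ms d)) = 0 → p ≠ q →
      eval p (ms d) ≠ eval q (ms d))

end Pool.Agent.N46.RV
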