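import Mathlib
import Pool.Agent.N46.RV.Stm

set_option autoImplicit false

/-!
# The further candidates have an integrating factor
-/

namespace Pool.Agent.N46.RV

open MvPolynomial
open Pool.Agent.Y215.CC Pool.Agent.N46.CS
open scoped LinearAlgebra.Projectivization

namespace ABZ

theorem comm2 (f : MvPolynomial (Fin 2) ℂ) : pderiv 0 (pderiv 1 f) = pderiv 1 (pderiv 0 f) := by
  induction f using MvPolynomial.induction_on with
  | C a => simp
  | add p q hp hq => rw [map_add, map_add, map_add, map_add, hp, hq]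
  | mul_X p i hp =>
    fin_cases i
    · simp only [Fin.zero_eta, Fin.mk_one, Derivation.leibniz, smul_eq_mul, map_add, pderiv_X_self,
        pderiv_X_of_ne (show (0 : Fin 2) ≠ 1 by decide), mul_zero, mul_one, zero_add, map_zero, hp]
      ring
    · simp only [Fin.zero_eta, Fin.mk_one, Derivation.leibniz, smul_eq_mul, map_add, pderiv_X_self,
        pderiv_X_of_ne (show (1 : Fin 2) ≠ 0 by decide), mul_zero, mul_one, zero_add, map_zero, hp]
      ring

theorem dpow (p : MvPolynomial (Fin 2) ℂ) (n : ℕ) (j : Fin 2) :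
    pderiv j (p ^ (n + 1)) = ((n : MvPolynomial (Fin 2) ℂ) + 1) * p ^ n * pderiv j p := by
  rw [Derivation.leibniz_pow, Nat.add_sub_cancel, nsmul_eq_mul, smul_eq_mul]
  push_cast
  ring

theorem intA (p q : MvPolynomial (Fin 2) ℂ) (i : ℕ) :
    IntF (p ^ i * pderiv 1 p + p * pderiv 1 q - (i : MvPolynomial (Fin 2) ℂ) * q * pderiv 1 p)
      (-(p ^ i * pderiv 0 p + p * pderiv 0 q - (i : MvPolynomial (Fin 2) ℂ) * q * pderiv 0 p)) (p ^ (i + 1)) := by
  unfold IntF
  rw [dpow, dpow]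
  have h1 : pderiv 0 (p ^ i) * pderiv 1 p = pderiv 1 (p ^ i) * pderiv 0 p := by
    rw [Derivation.leibniz_pow, Derivation.leibniz_pow]
    simp only [nsmul_eq_mul, smul_eq_mul]
    ring
  have h2 : pderiv 0 (p ^ i * pderiv 1 p + p * pderiv 1 q - (i : MvPolynomial (Fin 2) ℂ) * q * pderiv 1 p) +
      pderiv 1 (-(p ^ i * pderiv 0 p + p * pderiv 0 q - (i : MvPolynomial (Fin 2) ℂ) * q * pderiv 0 p)) =
      ((i : MvPolynomial (Fin 2) ℂ) + 1) * (pderiv 0 p * pderiv 1 q - pderiv 1 p * pderiv 0 q) := by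
    simp only [map_add, map_sub, map_neg, Derivation.leibniz, smul_eq_mul, Derivation.map_natCast, mul_zero,
      add_zero, comm2]
    linear_combination h1
  rw [h2]
  ring

theorem intB (p q : MvPolynomial (Fin 2) ℂ) :
    IntF (pderiv 1 q + q * pderiv 1 p) (-(pderiv 0 q + q * pderiv 0 p)) q := by
  unfold IntF
  simp only [map_add, map_neg, Derivation.leibniz, smul_eq_mul, comm2]
  ring

end ABZ

theorem t_ABZ : S_ABZ := by
  intro d _
  refine ⟨fun i hi => ?_, ?_⟩
  · rintro x ⟨w, hw, p, q, rfl, hp0, hp1, _, hP, hQ⟩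
    refine ⟨w, hw, rfl, p ^ (i + 1), pow_ne_zero _ hp0, ?_, ?_⟩
    · calc (p ^ (i + 1)).totalDegree ≤ (i + 1) * p.totalDegree := totalDegree_pow _ _
        _ ≤ (i + 1) * 1 := Nat.mul_le_mul_left _ hp1
        _ ≤ d + 1 := by omega
    · rw [hP, hQ]
      exact ABZ.intA p q i
  · rintro x ⟨w, hw, p, q, rfl, _, hq, hP, hQ⟩
    refine ⟨w, hw, rfl, q, ?_, by omega, ?_⟩
    · rintro rfl
      apply hw
      rw [← enc_fPQ w, hP, hQ]
      funext ie
      simp [enc]
    · rw [hP, hQ]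
      exact ABZ.intB p q

end Pool.Agent.N46.RV
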