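import Mathlib
import Pool.Agent.N46.RV.Stm

set_option autoImplicit false

namespace Pool.Agent.N46.RV

open MvPolynomial Filter Topology
open Pool.Agent.Y215.CC Pool.Agent.N46.CS
open scoped LinearAlgebra.Projectivization

namespace Asm

theorem comp (h1 : S_RCL) (h2 : S_RIR) (h3 : S_CMP) (h4 : S_NOI) (h5 : S_EXF) (h6 : S_ZOP)
    (d : ℕ) (hd : 3 ≤ d) :
    ∃ X : Set (ℙ ℂ (Frm d)), Maximal (fun Z => IsIrreducible Z ∧ Z ⊆ closure (centers d)) X ∧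
      YY d ⊆ X ∧ ∀ L : Set (ℙ ℂ (Frm d)), L ⊆ ZZ d → ¬ X ⊆ closure L := by
  obtain ⟨X, hX, hYX⟩ := h3 (ℙ ℂ (Frm d)) (closure (centers d)) (YY d) (h2 d)
    (h1 d (by omega))
  refine ⟨X, hX, hYX, ?_⟩
  intro L hL hXL
  obtain ⟨w, hw, hP, hQ, hrev⟩ := h5 d hd
  have hno : NoInt (d + 1) (fP w) (fQ w) := by
    rw [hP, hQ]; exact h4 (d + 1)
  obtain ⟨O, hO, hwO, hdis⟩ := h6 d w hw hno
  have h7 : Projectivization.mk ℂ w hw ∈ closure L := hXL (hYX ⟨w, hw, rfl, hrev⟩)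
  obtain ⟨y, hyO, hyL⟩ := mem_closure_iff.1 h7 O hO hwO
  exact Set.disjoint_left.1 hdis hyO (hL hyL)

/-- the class of `df` belongs to `X` -/
def DiffIn {d : ℕ} (X : Set (ℙ ℂ (Frm d))) (f : MvPolynomial (Fin 2) ℂ) : Prop :=
  ∃ (w : Frm d) (hw : w ≠ 0), fP w = pderiv 1 f ∧ fQ w = -pderiv 0 f ∧
    Projectivization.mk ℂ w hw ∈ X

theorem diffIn (h : S_DFF) {d : ℕ} {X : Set (ℙ ℂ (Frm d))} (hX : YY d ⊆ X)
    (f : MvPolynomial (Fin 2) ℂ) (hf : f.totalDegree ≤ d + 1) (hf1 : 1 ≤ f.totalDegree)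
    (hs : sg f = f) : DiffIn X f := by
  obtain ⟨⟨w, hP, hQ⟩, hne, hrev⟩ := h d f hf hf1
  refine ⟨w, hne w hP hQ, hP, hQ, hX ⟨w, hne w hP hQ, rfl, ?_⟩⟩
  rw [hP, hQ]
  exact hrev hs

end Asm

end Pool.Agent.N46.RV
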