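import Mathlib
import Pool.Agent.N46.RV.Stm

/-!
# RV/CMP: an irreducible subset of `M` is contained in an irreducible component of `M` (helper624)
-/

set_option autoImplicit false

namespace Pool.Agent.N46.RV

theorem CMP.pre {α : Type} [TopologicalSpace α] {c : Set (Set α)}
    (hcc : IsChain (fun s t => s ⊆ t) c) (hc : ∀ Z ∈ c, IsPreirreducible Z) :
    IsPreirreducible (⋃₀ c) := by
  intro u v hu hv ⟨y, hy, hyu⟩ ⟨x, hx, hxv⟩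
  obtain ⟨p, hpc, hyp⟩ := Set.mem_sUnion.1 hy
  obtain ⟨q, hqc, hxq⟩ := Set.mem_sUnion.1 hx
  rcases hcc.total hpc hqc with hpq | hqp
  · obtain ⟨z, hz, hzuv⟩ := hc q hqc u v hu hv ⟨y, hpq hyp, hyu⟩ ⟨x, hxq, hxv⟩
    exact ⟨z, Set.mem_sUnion_of_mem hz hqc, hzuv⟩
  · obtain ⟨z, hz, hzuv⟩ := hc p hpc u v hu hv ⟨y, hyp, hyu⟩ ⟨x, hqp hxq, hxv⟩
    exact ⟨z, Set.mem_sUnion_of_mem hz hpc, hzuv⟩

theorem t_CMP : S_CMP := by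
  intro α _ M Y hY hYM
  obtain ⟨m, hsm, hm⟩ := zorn_subset_nonempty {Z : Set α | IsIrreducible Z ∧ Z ⊆ M}
    (fun c hc hcc hne => ⟨⋃₀ c, ⟨⟨by
        obtain ⟨Z, hZ⟩ := hne
        obtain ⟨z, hz⟩ := (hc hZ).1.1
        exact ⟨z, Set.mem_sUnion_of_mem hz hZ⟩, CMP.pre hcc fun Z hZ => (hc hZ).1.2⟩,
      Set.sUnion_subset fun Z hZ => (hc hZ).2⟩, fun Z hZ => Set.subset_sUnion_of_mem hZ⟩)
    Y ⟨hY, hYM⟩
  exact ⟨m, hm, hsm⟩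

end Pool.Agent.N46.RV
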