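import Mathlib
import Pool.Agent.N46.RV.Stm

/-!
# DFF: the differential of a polynomial as a form
-/

set_option autoImplicit false

namespace Pool.Agent.N46.RV

open MvPolynomial Filter Topology
open Pool.Agent.Y215.CC Pool.Agent.N46.CS

namespace DFF

/-- the degree of a derivative -/
theorem deg_pderiv (d : ℕ) (f : MvPolynomial (Fin 2) ℂ) (hf : f.totalDegree ≤ d + 1)
    (i : Fin 2) : (pderiv i f).totalDegree ≤ d := by
  rw [totalDegree]
  refine Finset.sup_le fun m hm => ?_
  rw [mem_support_iff, coeff_pderiv] at hm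
  have h1 : coeff (m + Finsupp.single i 1) f ≠ 0 := left_ne_zero_of_mul hm
  have h2 := le_totalDegree (mem_support_iff.2 h1)
  rw [deg_mon] at h2 ⊢
  have h3 : (m + Finsupp.single i 1 : Fin 2 →₀ ℕ) 0 + (m + Finsupp.single i 1 : Fin 2 →₀ ℕ) 1 =
      m 0 + m 1 + 1 := by
    fin_cases i
    · simp
      omega
    · simp
      omega
  omega

/-- a polynomial with vanishing derivatives is constant -/
theorem const_of (f : MvPolynomial (Fin 2) ℂ) (h0 : pderiv 0 f = 0) (h1 : pderiv 1 f = 0) :
    f.totalDegree = 0 := by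
  rw [totalDegree, ← Nat.le_zero]
  refine Finset.sup_le fun m hm => ?_
  rw [deg_mon]
  by_contra hne
  have key : ∀ i : Fin 2, pderiv i f = 0 → m i = 0 := by
    intro i hi
    by_contra hmi
    have h2 : (m - Finsupp.single i 1) + Finsupp.single i 1 = m := by
      refine tsub_add_cancel_of_le ?_
      rw [Finsupp.single_le_iff]
      omega
    have h3 := coeff_pderiv (i := i) f (m - Finsupp.single i 1)
    rw [hi, h2, coeff_zero] at h3
    rcases mul_eq_zero.1 h3.symm with h | h
    · exact (mem_support_iff.1 hm) h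
    · exact Nat.cast_add_one_ne_zero _ h
  have h2 := key 0 h0
  have h3 := key 1 h1
  omega

/-- `sg` as an affine substitution -/
theorem sg_eq (P : MvPolynomial (Fin 2) ℂ) :
    sg P = sb (fun _ => 0) (fun i j => if i = j then (if i = 0 then -1 else 1) else 0) P := by
  rw [sg, sb]
  congr 2
  funext i
  fin_cases i <;> simp [aff]

theorem pderiv_zero_sg (P : MvPolynomial (Fin 2) ℂ) : pderiv 0 (sg P) = -sg (pderiv 0 P) := by
  rw [sg_eq, pderiv_sb, ← sg_eq, ← sg_eq]
  simp

theorem pderiv_one_sg (P : MvPolynomial (Fin 2) ℂ) : pderiv 1 (sg P) = sg (pderiv 1 P) := by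
  rw [sg_eq, pderiv_sb, ← sg_eq, ← sg_eq]
  simp

end DFF

theorem t_DFF : S_DFF := by
  intro d f hf h1
  refine ⟨⟨enc d (pderiv 1 f) (-pderiv 0 f), ?_, ?_⟩, ?_, ?_⟩
  · exact fP_enc _ _ (DFF.deg_pderiv d f hf 1)
  · refine fQ_enc _ _ ?_
    rw [totalDegree_neg]
    exact DFF.deg_pderiv d f hf 0
  · intro w h2 h3 hw
    subst hw
    have h4 : fP (0 : Frm d) = 0 := by simp [fP, poly]
    have h5 : fQ (0 : Frm d) = 0 := by simp [fQ, poly]
    rw [h4] at h2
    rw [h5] at h3
    have := DFF.const_of f (neg_eq_zero.1 h3.symm) h2.symm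
    omega
  · intro h
    refine ⟨?_, ?_⟩
    · rw [← DFF.pderiv_one_sg, h]
    · have h2 := DFF.pderiv_zero_sg f
      rw [h] at h2
      have h3 : sg (-pderiv 0 f) = -sg (pderiv 0 f) := by simp [sg]
      rw [h3, ← h2, neg_neg]

end Pool.Agent.N46.RV
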