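import Pool.Agent.N46.RV.Stm

/-!
Project RV, leaf EXF (helper310): the explicit form.
-/

set_option autoImplicit false

namespace Pool.Agent.N46.RV

open MvPolynomial Filter Topology
open Pool.Agent.Y215.CC Pool.Agent.N46.CS

namespace EXF

theorem deg_le : (2 * X 0 * (X 0 ^ 2 + X 1 ^ 2) : MvPolynomial (Fin 2) ℂ).totalDegree ≤ 3 := by
  have h0 : (X 0 : MvPolynomial (Fin 2) ℂ).totalDegree ≤ 1 := (totalDegree_X 0).le
  have h1 : (X 1 : MvPolynomial (Fin 2) ℂ).totalDegree ≤ 1 := (totalDegree_X 1).le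
  have h2 : (2 : MvPolynomial (Fin 2) ℂ).totalDegree ≤ 0 := by
    have : (2 : MvPolynomial (Fin 2) ℂ) = C 2 := (map_ofNat C 2).symm
    rw [this, totalDegree_C]
  have h3 : (X 0 ^ 2 : MvPolynomial (Fin 2) ℂ).totalDegree ≤ 2 := (totalDegree_pow _ _).trans (by omega)
  have h4 : (X 1 ^ 2 : MvPolynomial (Fin 2) ℂ).totalDegree ≤ 2 := (totalDegree_pow _ _).trans (by omega)
  have h5 : (X 0 ^ 2 + X 1 ^ 2 : MvPolynomial (Fin 2) ℂ).totalDegree ≤ 2 :=
    (totalDegree_add _ _).trans (max_le h3 h4)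
  have h6 : (2 * X 0 : MvPolynomial (Fin 2) ℂ).totalDegree ≤ 1 :=
    (totalDegree_mul _ _).trans (by omega)
  exact (totalDegree_mul _ _).trans (by omega)

end EXF

theorem t_EXF : S_EXF := by
  intro d hd
  have hP : (1 : MvPolynomial (Fin 2) ℂ).totalDegree ≤ d := by
    rw [totalDegree_one]; omega
  have hQ : (2 * X 0 * (X 0 ^ 2 + X 1 ^ 2) : MvPolynomial (Fin 2) ℂ).totalDegree ≤ d :=
    EXF.deg_le.trans hd
  have h1 : fP (enc d (1 : MvPolynomial (Fin 2) ℂ) (2 * X 0 * (X 0 ^ 2 + X 1 ^ 2))) = 1 :=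
    fP_enc _ _ hP
  have h2 : fQ (enc d (1 : MvPolynomial (Fin 2) ℂ) (2 * X 0 * (X 0 ^ 2 + X 1 ^ 2))) =
      2 * X 0 * (X 0 ^ 2 + X 1 ^ 2) := fQ_enc _ _ hQ
  refine ⟨enc d 1 (2 * X 0 * (X 0 ^ 2 + X 1 ^ 2)), ?_, h1, h2, ?_, ?_⟩
  · intro h0
    rw [h0] at h1
    have h3 : fP (0 : Frm d) = 0 := by simp [fP, poly]
    rw [h3] at h1
    exact zero_ne_one h1
  · rw [h1]
    unfold sg
    simp
  · rw [h2]
    unfold sg
    simp only [map_mul, map_add, map_pow, bind₁_X_right, Matrix.cons_val_zero, Matrix.cons_val_one,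
      map_ofNat]
    ring

end Pool.Agent.N46.RV
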