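import Mathlib
import Pool.Agent.N46.RV.Stm

set_option autoImplicit false

/-!
# Leaf RV/LIN: a reversible arrangement of lines in general position
-/

namespace Pool.Agent.N46.RV

open MvPolynomial

namespace LIN

/-- the slope of the line number `i` -/
noncomputable def m (d : ℕ) (i : Fin (d + 1)) : ℂ := 2 * (i : ℂ) - d

theorem ln_eq (d : ℕ) (i : Fin (d + 1)) :
    ln d i = X 1 - C (m d i) * X 0 - C ((m d i) ^ 2) := rfl

theorem m_rev (d : ℕ) (i : Fin (d + 1)) : m d (Fin.rev i) = -m d i := by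
  unfold m
  have h : ((Fin.rev i : Fin (d + 1)) : ℕ) + (i : ℕ) = d := by
    rw [Fin.val_rev]; omega
  have h2 : (((Fin.rev i : Fin (d + 1)) : ℕ) : ℂ) + ((i : ℕ) : ℂ) = d := by exact_mod_cast h
  linear_combination 2 * h2

theorem m_inj (d : ℕ) (i j : Fin (d + 1)) (h : m d i = m d j) : i = j := by
  unfold m at h
  have h2 : ((i : ℕ) : ℂ) = ((j : ℕ) : ℂ) := by linear_combination h / 2
  exact Fin.ext (by exact_mod_cast h2)

theorem sg_ln (d : ℕ) (i : Fin (d + 1)) : sg (ln d i) = ln d (Fin.rev i) := by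
  rw [ln_eq, ln_eq, m_rev]
  unfold sg
  simp only [map_sub, map_mul, bind₁_X_right, bind₁_C_right, Matrix.cons_val_zero,
    Matrix.cons_val_one, map_neg, neg_sq]
  simp

theorem coeff0 (d : ℕ) (i : Fin (d + 1)) : coeff (Finsupp.single 0 1) (ln d i) = -m d i := by
  rw [ln_eq]
  have h : (0 : Fin 2 →₀ ℕ) ≠ Finsupp.single 0 1 := fun h => by
    have := DFunLike.congr_fun h 0
    simp at this
  simp [coeff_X, coeff_C_mul, coeff_C, Finsupp.single_left_inj, h, -map_pow, -C_pow]

theorem coeff1 (d : ℕ) (i : Fin (d + 1)) : coeff (Finsupp.single 1 1) (ln d i) = 1 := by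
  rw [ln_eq]
  have h : (0 : Fin 2 →₀ ℕ) ≠ Finsupp.single 1 1 := fun h => by
    have := DFunLike.congr_fun h 1
    simp at this
  simp [coeff_X, coeff_C_mul, coeff_C, Finsupp.single_left_inj, h, -map_pow, -C_pow]

theorem ln_ne (d : ℕ) (i : Fin (d + 1)) : ln d i ≠ 0 := by
  intro h
  have := coeff1 d i
  rw [h] at this
  simp at this

theorem deg_ln (d : ℕ) (i : Fin (d + 1)) : (ln d i).totalDegree = 1 := by
  apply le_antisymm
  · rw [ln_eq]
    refine (totalDegree_sub _ _).trans (max_le ((totalDegree_sub _ _).trans (max_le ?_ ?_)) ?_)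
    · exact (totalDegree_X _).le
    · refine (totalDegree_mul _ _).trans ?_
      rw [totalDegree_C, totalDegree_X]
    · rw [totalDegree_C]; omega
  · have h : (Finsupp.single 1 1 : Fin 2 →₀ ℕ) ∈ (ln d i).support := by
      rw [mem_support_iff, coeff1]; exact one_ne_zero
    have := le_totalDegree h
    simpa using this

theorem deg_prod (d : ℕ) (s : Finset (Fin (d + 1))) :
    (∏ i ∈ s, ln d i).totalDegree = s.card := by
  classical
  induction s using Finset.induction_on with
  | empty => simp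
  | insert a s ha ih =>
    rw [Finset.prod_insert ha, Finset.card_insert_of_notMem ha,
      totalDegree_mul_of_isDomain (ln_ne d a) (Finset.prod_ne_zero_iff.2 fun i _ => ln_ne d i),
      deg_ln, ih]
    omega

end LIN

theorem t_LIN : S_LIN := by
  intro d _
  refine ⟨?_, ?_, ?_, ?_⟩
  · have h1 : sg (∏ i, ln d i) = ∏ i, sg (ln d i) := by
      unfold sg; exact map_prod _ _ _
    rw [h1]
    simp only [LIN.sg_ln]
    exact Equiv.prod_comp Fin.revPerm (fun i => ln d i)
  · rw [LIN.deg_prod]; simp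
  · intro i j hij h
    rw [LIN.coeff0, LIN.coeff1, LIN.coeff0, LIN.coeff1] at h
    apply hij
    apply LIN.m_inj
    linear_combination -h
  · intro i j k hij hjk hik p ⟨h1, h2, h3⟩
    rw [LIN.ln_eq] at h1 h2 h3
    simp only [map_sub, map_mul, eval_X, eval_C] at h1 h2 h3
    have e1 : LIN.m d i - LIN.m d j ≠ 0 := fun h => hij (LIN.m_inj d i j (sub_eq_zero.1 h))
    have e2 : LIN.m d j - LIN.m d k ≠ 0 := fun h => hjk (LIN.m_inj d j k (sub_eq_zero.1 h))
    have g1 : p 0 + LIN.m d i + LIN.m d j = 0 := by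
      apply mul_left_cancel₀ e1
      linear_combination h2 - h1
    have g2 : p 0 + LIN.m d j + LIN.m d k = 0 := by
      apply mul_left_cancel₀ e2
      linear_combination h3 - h2
    exact hik (LIN.m_inj d i k (by linear_combination g1 - g2))
end Pool.Agent.N46.RV
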