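import Mathlib
import Pool.Agent.N46.RV.Stm

set_option autoImplicit false

/-!
# Logarithmic forms have a polynomial integrating factor (leaf LOG)
-/

namespace Pool.Agent.N46.RV

open MvPolynomial Filter Topology
open Pool.Agent.Y215.CC Pool.Agent.N46.CS
open scoped LinearAlgebra.Projectivization

namespace LOG

/-- partial derivatives commute -/
theorem comm (f : MvPolynomial (Fin 2) ℂ) :
    pderiv 1 (pderiv 0 f) = pderiv 0 (pderiv 1 f) := by
  ext m
  rw [coeff_pderiv, coeff_pderiv, coeff_pderiv, coeff_pderiv]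
  have h1 : (m + Finsupp.single 1 1 : Fin 2 →₀ ℕ) 0 = m 0 := by simp
  have h2 : (m + Finsupp.single 0 1 : Fin 2 →₀ ℕ) 1 = m 1 := by simp
  rw [h1, h2, add_right_comm m (Finsupp.single 1 1) (Finsupp.single 0 1)]
  ring

/-- one term -/
theorem one (c : ℂ) (f G : MvPolynomial (Fin 2) ℂ) :
    (C c * G * pderiv 1 f) * pderiv 0 (f * G) + (-(C c * G * pderiv 0 f)) * pderiv 1 (f * G) =
      (pderiv 0 (C c * G * pderiv 1 f) + pderiv 1 (-(C c * G * pderiv 0 f))) * (f * G) := by
  simp only [pderiv_mul, map_neg, pderiv_C, comm f]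
  ring

end LOG

theorem t_LOG : S_LOG := by
  classical
  rintro d s dd hdd x ⟨w, hw, f, l, rfl, hf, hP, hQ⟩
  have hF0 : (∏ i, f i) ≠ 0 := by
    intro h0
    obtain ⟨k, -, hk⟩ := Finset.prod_eq_zero_iff.1 h0
    have hz : ∀ (a : Fin 2) (i : Fin s),
        C (l i) * (∏ j ∈ Finset.univ.erase i, f j) * pderiv a (f i) = 0 := by
      intro a i
      by_cases hik : i = k
      · rw [hik, hk, map_zero, mul_zero]
      · rw [Finset.prod_eq_zero (Finset.mem_erase.2 ⟨fun h => hik h.symm, Finset.mem_univ k⟩) hk,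
          mul_zero, zero_mul]
    have hP0 : fP w = 0 := by
      rw [hP]
      exact Finset.sum_eq_zero fun i _ => hz 1 i
    have hQ0 : fQ w = 0 := by
      rw [hQ, Finset.sum_eq_zero fun i _ => hz 0 i, neg_zero]
    refine hw (frm_ext (w' := 0) ?_ ?_)
    · rw [hP0]
      simp [fP, poly]
    · rw [hQ0]
      simp [fQ, poly]
  refine ⟨w, hw, rfl, ∏ i, f i, hF0, ?_, ?_⟩
  · calc (∏ i, f i).totalDegree ≤ ∑ i, (f i).totalDegree := totalDegree_finsetProd _ _
      _ ≤ ∑ i, dd i := Finset.sum_le_sum fun i _ => hf i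
      _ = d + 1 := hdd
  · unfold IntF
    have hprod : ∀ i : Fin s, (∏ i, f i) = f i * ∏ j ∈ Finset.univ.erase i, f j := fun i =>
      (Finset.mul_prod_erase Finset.univ f (Finset.mem_univ i)).symm
    have hQ' : fQ w = ∑ i, -(C (l i) * (∏ j ∈ Finset.univ.erase i, f j) * pderiv 0 (f i)) := by
      rw [hQ, Finset.sum_neg_distrib]
    rw [hP, hQ', map_sum, map_sum, ← Finset.sum_add_distrib, Finset.sum_mul, Finset.sum_mul,
      Finset.sum_mul, ← Finset.sum_add_distrib]
    refine Finset.sum_congr rfl fun i _ => ?_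
    rw [hprod i]
    exact LOG.one (l i) (f i) _

end Pool.Agent.N46.RV
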