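import Mathlib
import Pool.Agent.N46.RV.Stm

set_option autoImplicit false

/-!
# RV/MOR: the Morse polynomial `x ^ 2 + y ^ d + d y` (helper14, subtask 12891)
-/

namespace Pool.Agent.N46.RV

open MvPolynomial

namespace MOR

lemma sg_ms (d : ℕ) : sg (ms d) = ms d := by
  simp only [sg, ms, map_add, map_mul, map_pow, bind₁_X_right, bind₁_C_right,
    Matrix.cons_val_zero, Matrix.cons_val_one]
  ring

lemma pd0 (d : ℕ) : pderiv 0 (ms d) = C 2 * X 0 := by
  have h10 : pderiv (0 : Fin 2) (X 1 : MvPolynomial (Fin 2) ℂ) = 0 := pderiv_X_of_ne (by decide)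
  simp only [ms, map_add, pderiv_pow, pderiv_X_self, pderiv_C_mul, h10, mul_zero,
    mul_one, add_zero]
  simp [map_ofNat]

lemma pd1 (d : ℕ) : pderiv 1 (ms d) = C (d : ℂ) * X 1 ^ (d - 1) + C (d : ℂ) := by
  have h10 : pderiv (1 : Fin 2) (X 0 : MvPolynomial (Fin 2) ℂ) = 0 := pderiv_X_of_ne (by decide)
  simp only [ms, map_add, pderiv_pow, pderiv_X_self, pderiv_C_mul, h10, mul_zero,
    mul_one, zero_add]
  simp

lemma pd00 (d : ℕ) : pderiv 0 (pderiv 0 (ms d)) = C 2 := by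
  rw [pd0, pderiv_C_mul, pderiv_X_self, mul_one]

lemma pd10 (d : ℕ) : pderiv 1 (pderiv 0 (ms d)) = 0 := by
  rw [pd0, pderiv_C_mul, pderiv_X_of_ne (by decide), mul_zero]

lemma pd11 (d : ℕ) : pderiv 1 (pderiv 1 (ms d)) =
    C (d : ℂ) * (C ((d - 1 : ℕ) : ℂ) * X 1 ^ (d - 1 - 1)) := by
  rw [pd1, map_add, pderiv_C, add_zero, pderiv_C_mul, pderiv_pow, pderiv_X_self, mul_one]
  simp

lemma crit {d : ℕ} (hd : 3 ≤ d) {p : Fin 2 → ℂ} (h0 : eval p (pderiv 0 (ms d)) = 0)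
    (h1 : eval p (pderiv 1 (ms d)) = 0) : p 0 = 0 ∧ p 1 ^ (d - 1) = -1 ∧ p 1 ≠ 0 := by
  have hd0 : (d : ℂ) ≠ 0 := by
    have : d ≠ 0 := by omega
    exact_mod_cast this
  rw [pd0] at h0
  rw [pd1] at h1
  simp only [map_add, map_mul, map_pow, eval_C, eval_X] at h0 h1
  have h0' : p 0 = 0 := by
    rcases mul_eq_zero.mp h0 with h | h
    · norm_num at h
    · exact h
  have h1' : p 1 ^ (d - 1) = -1 := by
    have : (d : ℂ) * (p 1 ^ (d - 1) + 1) = 0 := by linear_combination h1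
    rcases mul_eq_zero.mp this with h | h
    · exact absurd h hd0
    · linear_combination h
  refine ⟨h0', h1', ?_⟩
  intro h
  rw [h, zero_pow (by omega)] at h1'
  norm_num at h1'

lemma val {d : ℕ} (hd : 3 ≤ d) {p : Fin 2 → ℂ} (h0 : eval p (pderiv 0 (ms d)) = 0)
    (h1 : eval p (pderiv 1 (ms d)) = 0) : eval p (ms d) = ((d : ℂ) - 1) * p 1 := by
  obtain ⟨a, b, _⟩ := crit hd h0 h1
  simp only [ms, map_add, map_mul, map_pow, eval_C, eval_X, a]
  have : p 1 ^ d = p 1 ^ (d - 1) * p 1 := by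
    rw [← pow_succ]; congr 1; omega
  rw [this, b]; ring

lemma deg {d : ℕ} (hd : 3 ≤ d) : (ms d).totalDegree = d := by
  unfold ms
  have h2 : (X 1 ^ d : MvPolynomial (Fin 2) ℂ).totalDegree = d := totalDegree_X_pow _ _
  have h1 : (X 0 ^ 2 : MvPolynomial (Fin 2) ℂ).totalDegree = 2 := totalDegree_X_pow _ _
  have h3 : (C (d : ℂ) * X 1 : MvPolynomial (Fin 2) ℂ).totalDegree ≤ 1 := by
    refine (totalDegree_mul _ _).trans ?_
    rw [totalDegree_C, totalDegree_X]
  have h12 : (X 0 ^ 2 + X 1 ^ d : MvPolynomial (Fin 2) ℂ).totalDegree = d := by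
    rw [totalDegree_add_eq_right_of_totalDegree_lt, h2]
    rw [h1, h2]; omega
  rw [totalDegree_add_eq_left_of_totalDegree_lt, h12]
  rw [h12]; omega

end MOR

open MOR in
theorem t_MOR : S_MOR := by
  intro d hd
  refine ⟨sg_ms d, deg hd, ?_, ?_⟩
  · intro p h0 h1
    obtain ⟨a, b, c⟩ := crit hd h0 h1
    have hd0 : (d : ℂ) ≠ 0 := by
      have : d ≠ 0 := by omega
      exact_mod_cast this
    have hd1 : ((d - 1 : ℕ) : ℂ) ≠ 0 := by
      have : d - 1 ≠ 0 := by omega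
      exact_mod_cast this
    rw [pd00, pd11, pd10, mul_zero, sub_zero]
    simp only [map_mul, map_pow, eval_C, eval_X]
    exact mul_ne_zero (by norm_num) (mul_ne_zero hd0 (mul_ne_zero hd1 (pow_ne_zero _ c)))
  · intro p q p0 p1 q0 q1 hpq
    rw [val hd p0 p1, val hd q0 q1]
    intro h
    apply hpq
    have hd1 : ((d : ℂ) - 1) ≠ 0 := by
      have : (d : ℂ) ≠ 1 := by
        have : d ≠ 1 := by omega
        exact_mod_cast this
      exact sub_ne_zero.mpr this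
    have h1 := mul_left_cancel₀ hd1 h
    have h0 : p 0 = q 0 := by rw [(crit hd p0 p1).1, (crit hd q0 q1).1]
    funext i
    fin_cases i
    · exact h0
    · exact h1

end Pool.Agent.N46.RV
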