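import Mathlib
import Pool.Agent.N46.RV.Stm

set_option autoImplicit false

/-!
# A nice reversible form: `X 1 dy - (X 0 + X 0 * X 1 ^ (d - 1)) dx`
-/

namespace Pool.Agent.N46.RV

open MvPolynomial
open Pool.Agent.Y215.CC Pool.Agent.N46.CS

namespace NIC

/-- `X 0 * (1 + X 1 ^ (d - 1))` -/
noncomputable def q (d : ℕ) : MvPolynomial (Fin 2) ℂ := X 0 + X 0 * X 1 ^ (d - 1)

lemma deg_q_le {d : ℕ} (hd : 2 ≤ d) : (q d).totalDegree ≤ d := by
  unfold q
  refine (totalDegree_add _ _).trans (max_le ?_ ?_)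
  · rw [totalDegree_X]; omega
  · refine (totalDegree_mul _ _).trans ?_
    rw [totalDegree_X, totalDegree_X_pow]
    omega

lemma mono_eq (d : ℕ) : (X 0 * X 1 ^ (d - 1) : MvPolynomial (Fin 2) ℂ) =
    monomial (Finsupp.single 0 1 + Finsupp.single 1 (d - 1)) 1 := by
  rw [X_pow_eq_monomial, X, monomial_mul, one_mul]

lemma le_deg_q {d : ℕ} (hd : 2 ≤ d) : d ≤ (q d).totalDegree := by
  classical
  have h : coeff (Finsupp.single 0 1 + Finsupp.single 1 (d - 1)) (q d) = 1 := by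
    unfold q
    rw [coeff_add, mono_eq, coeff_monomial, if_pos rfl, coeff_X, if_neg, zero_add]
    intro h
    have h1 := DFunLike.congr_fun h 1
    simp at h1
    omega
  have h2 := le_totalDegree (p := q d) (mem_support_iff.2 (by rw [h]; exact one_ne_zero))
  rw [deg_mon] at h2
  simp at h2
  omega

end NIC

theorem t_NIC : S_NIC := by
  intro d hd
  have d1 : (X 1 : MvPolynomial (Fin 2) ℂ).totalDegree ≤ d := by
    rw [totalDegree_X]; omega
  have hP : fP (enc d (X 1) (NIC.q d)) = X 1 := fP_enc _ _ d1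
  have hQ : fQ (enc d (X 1) (NIC.q d)) = NIC.q d := fQ_enc _ _ (NIC.deg_q_le hd)
  have h01 : (0 : Fin 2) ≠ 1 := by decide
  refine ⟨enc d (X 1) (NIC.q d), ⟨?_, ?_⟩, ⟨?_, ?_⟩, ⟨?_, ?_⟩, ?_⟩
  · rw [hP, hQ]
    have hpr : Prime (X 1 : MvPolynomial (Fin 2) ℂ) := X_prime
    refine (hpr.irreducible.isRelPrime_iff_not_dvd).2 ?_
    rintro ⟨c, hc⟩
    have h1 := congrArg (eval ![(1 : ℂ), 0]) hc
    have hd1 : d - 1 ≠ 0 := by omega
    simp [NIC.q, hd1] at h1
  · rw [hP, hQ, totalDegree_X, le_antisymm (NIC.deg_q_le hd) (NIC.le_deg_q hd)]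
    exact max_eq_right (by omega)
  · rw [hP]
    simp [sg]
  · rw [hQ]
    simp [sg, NIC.q]
    ring
  · rw [hP]
    simp
  · rw [hQ]
    simp [NIC.q]
  · rw [hP, hQ]
    have hd1 : d - 1 ≠ 0 := by omega
    have e0 : pderiv (0 : Fin 2) (X 1 : MvPolynomial (Fin 2) ℂ) = 0 := pderiv_X_of_ne h01.symm
    have e1 : pderiv (1 : Fin 2) (X 1 : MvPolynomial (Fin 2) ℂ) = 1 := pderiv_X_self 1
    have e2 : pderiv (0 : Fin 2) (NIC.q d) = 1 + X 1 ^ (d - 1) := by
      unfold NIC.q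
      rw [map_add, pderiv_mul, pderiv_X_self, pderiv_pow, e0]
      ring
    rw [e0, e1, e2]
    simp [hd1]

end Pool.Agent.N46.RV
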