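import Pool.Agent.N46.RV.Stm

/-!
# RV/NOI: an explicit reversible form without polynomial integrating factor
-/

set_option autoImplicit false

namespace Pool.Agent.N46.RV

open MvPolynomial

namespace NOI

open Polynomial in
/-- `F` as a polynomial in `y` over `ℂ[x]` -/
noncomputable def ph : MvPolynomial (Fin 2) ℂ →+* Polynomial (Polynomial ℂ) :=
  MvPolynomial.eval₂Hom ((Polynomial.C).comp (Polynomial.C)) ![Polynomial.C Polynomial.X, Polynomial.X]

/-- the inverse -/
noncomputable def ps : Polynomial (Polynomial ℂ) →+* MvPolynomial (Fin 2) ℂ :=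
  Polynomial.eval₂RingHom (Polynomial.eval₂RingHom MvPolynomial.C (X 0)) (X 1)

theorem ph_C (c : ℂ) : ph (C c) = Polynomial.C (Polynomial.C c) := by
  simp [ph]

theorem ph_X0 : ph (X 0) = Polynomial.C Polynomial.X := by
  simp [ph]

theorem ph_X1 : ph (X 1) = Polynomial.X := by
  simp [ph]

theorem ps_ph (F : MvPolynomial (Fin 2) ℂ) : ps (ph F) = F := by
  have h : ps.comp ph = RingHom.id _ := by
    apply MvPolynomial.ringHom_ext
    · intro c
      simp [ps, ph_C]
    · intro i
      fin_cases i
      · simp [ps, ph_X0]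
      · simp [ps, ph_X1]
  exact congrArg (fun f : MvPolynomial (Fin 2) ℂ →+* MvPolynomial (Fin 2) ℂ => f F) h

theorem ph_inj {F : MvPolynomial (Fin 2) ℂ} (h : ph F = 0) : F = 0 := by
  rw [← ps_ph F, h, map_zero]

theorem ph_d1 (F : MvPolynomial (Fin 2) ℂ) : ph (pderiv 1 F) = Polynomial.derivative (ph F) := by
  induction F using MvPolynomial.induction_on with
  | C c => simp [ph_C]
  | add p q hp hq => simp only [map_add, hp, hq]
  | mul_X p i hp =>
    rw [Derivation.leibniz, smul_eq_mul, smul_eq_mul, map_add, map_mul, map_mul, map_mul,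
      Polynomial.derivative_mul, hp]
    fin_cases i
    · simp [ph_X0]
      ring
    · simp [ph_X1]
      ring

theorem ph_d0 (F : MvPolynomial (Fin 2) ℂ) : ∀ n, (ph (pderiv 0 F)).coeff n =
    Polynomial.derivative ((ph F).coeff n) := by
  induction F using MvPolynomial.induction_on with
  | C c =>
    intro n
    rw [pderiv_C, map_zero, ph_C, Polynomial.coeff_zero, Polynomial.coeff_C]
    split_ifs <;> simp
  | add p q hp hq =>
    intro n
    simp only [map_add, Polynomial.coeff_add, hp, hq]
  | mul_X p i hp =>
    intro n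
    rw [Derivation.leibniz, smul_eq_mul, smul_eq_mul, map_add, map_mul, map_mul, map_mul]
    fin_cases i
    · simp only [Fin.zero_eta, ph_X0, pderiv_X_self, map_one, mul_one, Polynomial.coeff_add,
        Polynomial.coeff_mul_C, Polynomial.coeff_C_mul, Polynomial.derivative_mul,
        Polynomial.derivative_X, hp]
      ring
    · have h01 : pderiv (R := ℂ) (0 : Fin 2) (X 1) = 0 := pderiv_X_of_ne (by simp)
      simp only [Fin.mk_one, ph_X1, h01, map_zero, mul_zero, zero_add]
      cases n with
      | zero => simp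
      | succ n =>
        rw [Polynomial.coeff_X_mul, Polynomial.coeff_mul_X, hp]

theorem coeff_X_mul_der (p : Polynomial ℂ) (k : ℕ) :
    (Polynomial.X * Polynomial.derivative p).coeff k = k * p.coeff k := by
  cases k with
  | zero => simp
  | succ k =>
    rw [Polynomial.coeff_X_mul, Polynomial.coeff_derivative]
    push_cast
    ring

theorem ode {a0 a1 a2 : Polynomial ℂ} (h2 : a2 ≠ 0)
    (e1 : Polynomial.derivative a2 = 2 * Polynomial.X * a1)
    (e2 : Polynomial.derivative a1 + 4 * Polynomial.X ^ 3 * a2 = 4 * Polynomial.X * a0)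
    (e3 : Polynomial.derivative a0 + 2 * Polynomial.X ^ 3 * a1 = 0) : False := by
  set d := a2.natDegree with hd
  have hc : a2.coeff d ≠ 0 := by
    rw [hd, Polynomial.coeff_natDegree]
    exact Polynomial.leadingCoeff_ne_zero.2 h2
  have k1 : a1.coeff (d + 4) = 0 := by
    have h := congrArg (fun p : Polynomial ℂ => p.coeff (d + 5)) e1
    simp only [Polynomial.coeff_derivative] at h
    rw [Polynomial.coeff_eq_zero_of_natDegree_lt (by omega : a2.natDegree < d + 5 + 1), zero_mul,
      mul_assoc, Polynomial.coeff_ofNat_mul, Polynomial.coeff_X_mul] at h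
    have h' : (2 : ℂ) * a1.coeff (d + 4) = 0 := h.symm
    exact (mul_eq_zero.1 h').resolve_left two_ne_zero
  have k2 : a0.coeff (d + 2) = a2.coeff d := by
    have h := congrArg (fun p : Polynomial ℂ => p.coeff (d + 3)) e2
    simp only [Polynomial.coeff_add, Polynomial.coeff_derivative] at h
    rw [k1, zero_mul, zero_add, mul_assoc, mul_assoc, Polynomial.coeff_ofNat_mul,
      Polynomial.coeff_ofNat_mul, Polynomial.coeff_X_mul, mul_comm (Polynomial.X ^ 3),
      Polynomial.coeff_mul_X_pow] at h
    have h' : (4 : ℂ) * a2.coeff d = 4 * a0.coeff (d + 2) := h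
    have := mul_left_cancel₀ (by norm_num : (4 : ℂ) ≠ 0) h'
    exact this.symm
  have k3 : ((d : ℂ) + 2) * a0.coeff (d + 2) + d * a2.coeff d = 0 := by
    have e4 : 2 * Polynomial.X ^ 3 * a1 = Polynomial.X * (Polynomial.X * Polynomial.derivative a2) := by
      rw [e1]; ring
    rw [e4] at e3
    have h := congrArg (fun p : Polynomial ℂ => p.coeff (d + 1)) e3
    simp only [Polynomial.coeff_add, Polynomial.coeff_derivative, Polynomial.coeff_X_mul,
      Polynomial.coeff_zero] at h
    rw [coeff_X_mul_der] at h
    rw [← h]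
    push_cast
    ring
  rw [k2] at k3
  have k4 : (2 * (d : ℂ) + 2) * a2.coeff d = 0 := by
    rw [← k3]; ring
  rcases mul_eq_zero.1 k4 with h | h
  · have : ((2 * d + 2 : ℕ) : ℂ) = 0 := by
      push_cast
      exact h
    rw [Nat.cast_eq_zero] at this
    omega
  · exact hc h

end NOI

open NOI

theorem t_NOI : S_NOI := by
  intro n F _ hF
  by_contra hne
  have hG : ph F ≠ 0 := fun h => hne (ph_inj h)
  set a : ℕ → Polynomial ℂ := fun k => (ph F).coeff k with ha
  unfold IntF at hF
  have hF' : pderiv 0 F + 2 * X 0 * (X 0 ^ 2 + X 1 ^ 2) * pderiv 1 F = 4 * X 0 * X 1 * F := by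
    have h1 : pderiv (R := ℂ) (0 : Fin 2) (1 : MvPolynomial (Fin 2) ℂ) = 0 := by simp
    have h2 : pderiv (R := ℂ) (1 : Fin 2) (2 * X 0 * (X 0 ^ 2 + X 1 ^ 2) : MvPolynomial (Fin 2) ℂ) =
        4 * X 0 * X 1 := by
      have h01 : pderiv (R := ℂ) (1 : Fin 2) (X 0) = 0 := pderiv_X_of_ne (by simp)
      have h3 : (2 * X 0 * (X 0 ^ 2 + X 1 ^ 2) : MvPolynomial (Fin 2) ℂ) =
          X 0 * X 0 * X 0 + X 0 * X 0 * X 0 + (X 0 * X 1 * X 1 + X 0 * X 1 * X 1) := by ring
      rw [h3]
      simp only [map_add, Derivation.leibniz, h01, smul_eq_mul, mul_zero, add_zero, zero_add,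
        pderiv_X_self, mul_one]
      ring
    rw [one_mul, h1, h2, zero_add] at hF
    exact hF
  have hE := congrArg ph hF'
  simp only [map_add, map_mul, map_pow, map_ofNat, ph_X0, ph_X1, ph_d1] at hE
  have key : ∀ m : ℕ, Polynomial.derivative (a (m + 1)) +
      2 * Polynomial.X ^ 3 * (((m + 2 : ℕ) : Polynomial ℂ) * a (m + 2)) +
      2 * Polynomial.X * (((m : ℕ) : Polynomial ℂ) * a m) = 4 * Polynomial.X * a m := by
    intro m
    have h := congrArg (fun p : Polynomial (Polynomial ℂ) => p.coeff (m + 1)) hE
    have e1 : (2 * Polynomial.C Polynomial.X * (Polynomial.C Polynomial.X ^ 2 + Polynomial.X ^ 2) *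
        Polynomial.derivative (ph F) : Polynomial (Polynomial ℂ)) =
        Polynomial.C (2 * Polynomial.X ^ 3) * Polynomial.derivative (ph F) +
        Polynomial.C (2 * Polynomial.X) * (Polynomial.derivative (ph F) * Polynomial.X * Polynomial.X) := by
      simp only [map_mul, map_pow, map_ofNat]
      ring
    have e2 : (4 * Polynomial.C Polynomial.X * Polynomial.X * ph F : Polynomial (Polynomial ℂ)) =
        Polynomial.C (4 * Polynomial.X) * (ph F * Polynomial.X) := by
      simp only [map_mul, map_ofNat]
      ring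
    rw [e1, e2] at h
    simp only [Polynomial.coeff_add, ph_d0, Polynomial.coeff_C_mul, Polynomial.coeff_derivative,
      Polynomial.coeff_mul_X] at h
    have e3 : (Polynomial.derivative (ph F) * Polynomial.X).coeff m =
        ((m : ℕ) : Polynomial ℂ) * a m := by
      cases m with
      | zero => simp
      | succ m =>
        rw [Polynomial.coeff_mul_X, Polynomial.coeff_derivative]
        simp only [ha]
        push_cast
        ring
    rw [e3] at h
    simp only [ha]
    simp only [ha] at h
    rw [← h]
    push_cast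
    ring
  have key0 : Polynomial.derivative (a 0) + 2 * Polynomial.X ^ 3 * a 1 = 0 := by
    have h := congrArg (fun p : Polynomial (Polynomial ℂ) => p.coeff 0) hE
    have e1 : (2 * Polynomial.C Polynomial.X * (Polynomial.C Polynomial.X ^ 2 + Polynomial.X ^ 2) *
        Polynomial.derivative (ph F) : Polynomial (Polynomial ℂ)) =
        Polynomial.C (2 * Polynomial.X ^ 3) * Polynomial.derivative (ph F) +
        Polynomial.C (2 * Polynomial.X) * (Polynomial.derivative (ph F) * Polynomial.X * Polynomial.X) := by
      simp only [map_mul, map_pow, map_ofNat]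
      ring
    have e2 : (4 * Polynomial.C Polynomial.X * Polynomial.X * ph F : Polynomial (Polynomial ℂ)) =
        Polynomial.C (4 * Polynomial.X) * (ph F * Polynomial.X) := by
      simp only [map_mul, map_ofNat]
      ring
    rw [e1, e2] at h
    simp only [Polynomial.coeff_add, ph_d0, Polynomial.coeff_C_mul, Polynomial.coeff_derivative] at h
    simp only [Polynomial.mul_coeff_zero, Polynomial.coeff_X_zero, mul_zero, add_zero] at h
    simp only [ha]
    rw [← h]
    push_cast
    ring
  set N := (ph F).natDegree with hN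
  have hz : ∀ k, N < k → a k = 0 := fun k hk => Polynomial.coeff_eq_zero_of_natDegree_lt hk
  have hlead : a N ≠ 0 := by
    simp only [ha, hN, Polynomial.coeff_natDegree]
    exact Polynomial.leadingCoeff_ne_zero.2 hG
  have hN2 : N = 2 := by
    have h := key N
    rw [hz (N + 1) (by omega), hz (N + 2) (by omega)] at h
    have h1 : (2 * Polynomial.X * a N) * ((N : Polynomial ℂ) - 2) = 0 := by
      simp only [Polynomial.derivative_zero, mul_zero, zero_add] at h
      linear_combination h
    rcases mul_eq_zero.1 h1 with h2 | h2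
    · exact absurd h2 (mul_ne_zero (mul_ne_zero two_ne_zero Polynomial.X_ne_zero) hlead)
    · have h3 : ((N : ℕ) : Polynomial ℂ) = ((2 : ℕ) : Polynomial ℂ) := by
        rw [sub_eq_zero] at h2
        rw [h2]
        norm_num
      exact_mod_cast h3
  have k1 := key 1
  have k0 := key 0
  rw [hz 3 (by omega)] at k1
  rw [hN2] at hlead
  refine ode (a0 := a 0) (a1 := a 1) (a2 := a 2) hlead ?_ ?_ key0
  · push_cast at k1
    linear_combination k1
  · push_cast at k0
    linear_combination k0

end Pool.Agent.N46.RV
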