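import Mathlib
import Pool.Agent.N46.RV.Stm
import Pool.Agent.N46.CS.FOP

set_option autoImplicit false

/-!
# Reversible forms belong to the center variety (leaf RCL of project RV)

Worker: helper973.
-/

namespace Pool.Agent.N46.RV

open MvPolynomial Filter Topology
open Pool.Agent.Y215.CC Pool.Agent.N46.CS
open scoped LinearAlgebra.Projectivization

namespace RCL

/-- the path from `w₁` to `w` -/
noncomputable def pth {d : ℕ} (w w₁ : Frm d) : Fin 2 × Ex d → Polynomial ℂ :=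
  fun i => Polynomial.C (w₁ i) + Polynomial.X * Polynomial.C (w i - w₁ i)

lemma pth_eval {d : ℕ} (w w₁ : Frm d) (ε : ℂ) :
    (fun i => (pth w w₁ i).eval ε) = w₁ + ε • (w - w₁) := by
  funext i
  simp [pth]

lemma fin_zero {d : ℕ} (w w₁ : Frm d) (h : w₁ ≠ 0) : {ε : ℂ | w₁ + ε • (w - w₁) = 0}.Finite := by
  obtain ⟨i, hi⟩ := Function.ne_iff.1 h
  have hp : pth w w₁ i ≠ 0 := by
    intro h0
    have h1 : (pth w w₁ i).eval 0 = 0 := by rw [h0, Polynomial.eval_zero]
    apply hi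
    simpa [pth] using h1
  refine (Polynomial.finite_setOfPred_isRoot hp).subset fun ε hε => ?_
  have h2 := congrFun (pth_eval w w₁ ε) i
  have h3 : w₁ + ε • (w - w₁) = 0 := hε
  rw [h3] at h2
  exact h2

lemma ne_of_fol {d : ℕ} (hd : 1 ≤ d) {w : Frm d} (h : Fol w) : w ≠ 0 := by
  rintro rfl
  have h2 := h.2
  rw [FOP_.fP_zero, FOP_.fQ_zero, totalDegree_zero, max_self] at h2
  omega

end RCL

open RCL

theorem t_RCL (h1 : S_NIC) (h2 : S_RPT) (h3 : S_FOP) : S_RCL := by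
  intro d hd x hx
  obtain ⟨w, hw, rfl, hrev⟩ := hx
  obtain ⟨w₁, hF1, hr1, hs1, hd1⟩ := h1 d hd
  have hd' : 1 ≤ d := by omega
  have hw₁ : w₁ ≠ 0 := ne_of_fol hd' hF1
  set T : Set ℂ := {ε | w₁ + ε • (w - w₁) ≠ 0 ∧ Fol (w₁ + ε • (w - w₁)) ∧
    ∃ p : Fin 2 → ℂ, HasCenterAt (fP (w₁ + ε • (w - w₁))) (fQ (w₁ + ε • (w - w₁))) p} with hT
  have hc := h2 d hd' w w₁ hrev hr1 hs1 hd1
  set N : Set ℂ := {ε | ∃ p : Fin 2 → ℂ,
    HasCenterAt (fP (w₁ + ε • (w - w₁))) (fQ (w₁ + ε • (w - w₁))) p} with hN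
  have hNi : N.Infinite := infinite_of_mem_nhds (0 : ℂ) hc
  have hTi : T.Infinite := by
    intro hfin
    have hT' : (N \ (T ∪ {ε : ℂ | w₁ + ε • (w - w₁) = 0})).Infinite :=
      hNi.sdiff (hfin.union (fin_zero w w₁ hw₁))
    have hcl := (h3 d hd').isClosed_compl
    have h0 : (fun i => (pth w w₁ i).eval 0) ≠ 0 := by
      rw [pth_eval, zero_smul, add_zero]
      exact hw₁
    have key := path_closed hcl (pth w w₁) _ hT' (fun ε hε => ?_) 0 h0
    · have h0' : (fun i => (pth w w₁ i).eval 0) = w₁ := by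
        rw [pth_eval, zero_smul, add_zero]
      apply key
      refine ⟨w₁, hw₁, ?_, hF1⟩
      congr 1
    · have hne : w₁ + ε • (w - w₁) ≠ 0 := fun h => hε.2 (Or.inr h)
      have hne' : (fun i => (pth w w₁ i).eval ε) ≠ 0 := by
        rw [pth_eval]
        exact hne
      refine ⟨hne', ?_⟩
      intro hmem
      rw [FOP_.mem_iff hd'] at hmem
      rw [pth_eval] at hmem
      exact hε.2 (Or.inl ⟨hne, FOP_.fol_of_inj hne hmem, hε.1⟩)
  have h1' : (fun i => (pth w w₁ i).eval 1) = w := by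
    rw [pth_eval, one_smul]
    abel
  have h1ne : (fun i => (pth w w₁ i).eval 1) ≠ 0 := by
    rw [h1']
    exact hw
  have key := path_closed (Z := closure (centers d)) isClosed_closure (pth w w₁) T hTi
    (fun ε hε => ?_) 1 h1ne
  · have e : Projectivization.mk ℂ w hw = Projectivization.mk ℂ _ h1ne := by
      congr 1
      exact h1'.symm
    rw [e]
    exact key
  · have hne' : (fun i => (pth w w₁ i).eval ε) ≠ 0 := by
      rw [pth_eval]
      exact hε.1
    refine ⟨hne', subset_closure ⟨w₁ + ε • (w - w₁), hε.1, ?_, hε.2.1.1, hε.2.1.2, hε.2.2⟩⟩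
    congr 1
    exact pth_eval w w₁ ε

end Pool.Agent.N46.RV
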