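import Mathlib
import Pool.Agent.N46.RV.Stm
import Pool.Agent.N46.CS.DIA

set_option autoImplicit false

/-!
# The reversible component of the center variety: a reduced singular point on the axis of a
reversible field is a center
-/

namespace Pool.Agent.N46.RV

open MvPolynomial
open Pool.Agent.Y215.CC Pool.Agent.N46.CS

namespace RCN

theorem sg_C (a : ℂ) : sg (C a) = C a := by simp [sg]

theorem sg_add (P Q : MvPolynomial (Fin 2) ℂ) : sg (P + Q) = sg P + sg Q := by simp [sg]

theorem sg_mul (P Q : MvPolynomial (Fin 2) ℂ) : sg (P * Q) = sg P * sg Q := by simp [sg]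

theorem sg_X0 : sg (X 0) = -X 0 := by simp [sg]

theorem sg_X1 : sg (X 1) = X 1 := by simp [sg]

theorem pderiv0_sg (P : MvPolynomial (Fin 2) ℂ) : pderiv 0 (sg P) = -sg (pderiv 0 P) := by
  induction P using MvPolynomial.induction_on with
  | C a => simp [sg]
  | add p q hp hq => rw [sg_add, map_add, map_add, sg_add, hp, hq]; ring
  | mul_X p i hp =>
    rw [sg_mul, Derivation.leibniz, hp, Derivation.leibniz, sg_add, smul_eq_mul, smul_eq_mul,
      smul_eq_mul, smul_eq_mul, sg_mul, sg_mul]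
    fin_cases i
    · simp only [Fin.zero_eta, sg_X0, pderiv_X_self, map_neg]
      have h1 : sg (1 : MvPolynomial (Fin 2) ℂ) = 1 := by simp [sg]
      rw [h1]
      ring
    · simp only [Fin.mk_one, sg_X1]
      have h0 : pderiv 0 (X 1 : MvPolynomial (Fin 2) ℂ) = 0 :=
        pderiv_X_of_ne (by decide)
      have h1 : sg (0 : MvPolynomial (Fin 2) ℂ) = 0 := by simp [sg]
      rw [h0, h1]
      ring

theorem pderiv1_sg (P : MvPolynomial (Fin 2) ℂ) : pderiv 1 (sg P) = sg (pderiv 1 P) := by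
  induction P using MvPolynomial.induction_on with
  | C a => simp [sg]
  | add p q hp hq => rw [sg_add, map_add, map_add, sg_add, hp, hq]
  | mul_X p i hp =>
    rw [sg_mul, Derivation.leibniz, hp, Derivation.leibniz, sg_add, smul_eq_mul, smul_eq_mul,
      smul_eq_mul, smul_eq_mul, sg_mul, sg_mul]
    fin_cases i
    · simp only [Fin.zero_eta, sg_X0, map_neg]
      have h0 : pderiv 1 (X 0 : MvPolynomial (Fin 2) ℂ) = 0 :=
        pderiv_X_of_ne (by decide)
      have h1 : sg (0 : MvPolynomial (Fin 2) ℂ) = 0 := by simp [sg]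
      rw [h0, h1]
      ring
    · simp only [Fin.mk_one, sg_X1, pderiv_X_self]
      have h1 : sg (1 : MvPolynomial (Fin 2) ℂ) = 1 := by simp [sg]
      rw [h1]

theorem eval_sg (p : Fin 2 → ℂ) (hp : p 0 = 0) (P : MvPolynomial (Fin 2) ℂ) :
    eval p (sg P) = eval p P := by
  induction P using MvPolynomial.induction_on with
  | C a => simp [sg]
  | add f g hf hg => rw [sg_add, map_add, map_add, hf, hg]
  | mul_X f i hf =>
    rw [sg_mul, map_mul, map_mul, hf]
    fin_cases i
    · simp only [Fin.zero_eta, sg_X0, map_neg, eval_X, hp, neg_zero]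
    · simp only [Fin.mk_one, sg_X1]

theorem sw_C (a : ℂ) : sw (C a) = C a := by simp [sw]

theorem sw_add (P Q : MvPolynomial (Fin 2) ℂ) : sw (P + Q) = sw P + sw Q := by simp [sw]

theorem sw_mul (P Q : MvPolynomial (Fin 2) ℂ) : sw (P * Q) = sw P * sw Q := by simp [sw]

theorem sw_shf (z : Fin 2 → ℂ) (M : Fin 2 → Fin 2 → ℂ) (hz : z 0 = 0) (h0 : M 0 1 = -M 0 0)
    (h1 : M 1 1 = M 1 0) (P : MvPolynomial (Fin 2) ℂ) : sw (shf z M P) = shf z M (sg P) := by
  have hm : ∀ F G : MvPolynomial (Fin 2) ℂ, shf z M (F * G) = shf z M F * shf z M G := by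
    intro F G
    simp only [shf, map_mul]
  have hX0 : sw (shf z M (X 0)) = shf z M (sg (X 0)) := by
    rw [sg_X0]
    have e1 : shf z M (X 0) = C (M 0 0) * X 0 + -(C (M 0 0) * X 1) := by
      simp only [shf, bind₁_X_right]
      rw [hz, h0, C_neg, C_0]
      ring
    have e2 : shf z M (-X 0) = -shf z M (X 0) := by
      simp only [shf, map_neg]
    have e3 : sw (C (M 0 0) * X 0 + -(C (M 0 0) * X 1)) =
        C (M 0 0) * X 1 + -(C (M 0 0) * X 0) := by
      simp only [sw, map_add, map_mul, map_neg, bind₁_X_right, bind₁_C_right, Matrix.cons_val_zero,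
        Matrix.cons_val_one]
    rw [e2, e1, e3]
    ring
  have hX1 : sw (shf z M (X 1)) = shf z M (sg (X 1)) := by
    rw [sg_X1]
    have e1 : shf z M (X 1) = C (z 1) + C (M 1 0) * X 0 + C (M 1 0) * X 1 := by
      simp only [shf, bind₁_X_right]
      rw [h1]
    have e3 : sw (C (z 1) + C (M 1 0) * X 0 + C (M 1 0) * X 1) =
        C (z 1) + C (M 1 0) * X 1 + C (M 1 0) * X 0 := by
      simp only [sw, map_add, map_mul, bind₁_X_right, bind₁_C_right, Matrix.cons_val_zero,
        Matrix.cons_val_one]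
    rw [e1, e3]
    ring
  have hX : ∀ i : Fin 2, sw (shf z M (X i)) = shf z M (sg (X i)) :=
    Fin.forall_fin_two.2 ⟨hX0, hX1⟩
  induction P using MvPolynomial.induction_on with
  | C a => simp [sw, sg, shf]
  | add f g hf hg => rw [sg_add, DIA.shf_add, DIA.shf_add, sw_add, hf, hg]
  | mul_X f i hf => rw [sg_mul, hm, hm, sw_mul, hf, hX]

end RCN

open RCN in
theorem t_RCN (h1 : S_RFI) (h2 : S_CEN) (h3 : S_AFF) : S_RCN := by
  intro P Q p hR hp hP hdet
  obtain ⟨hRP, hRQ⟩ := hR
  have two : (2 : ℂ) ≠ 0 := two_ne_zero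
  -- values at `p`
  have eP0 : eval p (pderiv 0 P) = 0 := by
    have h := congrArg (fun F => eval p (pderiv 0 F)) hRP
    simp only [pderiv0_sg, map_neg, eval_sg p hp] at h
    have h' : (2 : ℂ) * eval p (pderiv 0 P) = 0 := by linear_combination -h
    exact (mul_eq_zero.1 h').resolve_left two
  have eQ : eval p Q = 0 := by
    have h := congrArg (fun F => eval p F) hRQ
    simp only [map_neg, eval_sg p hp] at h
    have h' : (2 : ℂ) * eval p Q = 0 := by linear_combination h
    exact (mul_eq_zero.1 h').resolve_left two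
  have eQ1 : eval p (pderiv 1 Q) = 0 := by
    have h := congrArg (fun F => eval p (pderiv 1 F)) hRQ
    simp only [pderiv1_sg, map_neg, eval_sg p hp] at h
    have h' : (2 : ℂ) * eval p (pderiv 1 Q) = 0 := by linear_combination h
    exact (mul_eq_zero.1 h').resolve_left two
  rw [map_sub, map_mul, map_mul, eP0, eQ1] at hdet
  obtain ⟨a, ha⟩ : ∃ a, a = eval p (pderiv 1 P) := ⟨_, rfl⟩
  obtain ⟨b, hb⟩ : ∃ b, b = eval p (pderiv 0 Q) := ⟨_, rfl⟩
  rw [← ha, ← hb] at hdet
  have ha0 : a ≠ 0 := by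
    rintro rfl
    apply hdet
    ring
  have hb0 : b ≠ 0 := by
    rintro rfl
    apply hdet
    ring
  obtain ⟨l, hl⟩ := IsAlgClosed.exists_pow_nat_eq (a * b) (n := 2) (by norm_num)
  have hl0 : l ≠ 0 := by
    rintro rfl
    exact mul_ne_zero ha0 hb0 (by rw [← hl]; norm_num)
  have hI : Im ![![a / l, -(a / l)], ![1, 1]] ![![l / (2 * a), 1 / 2], ![-(l / (2 * a)), 1 / 2]] := by
    constructor <;> simp <;> field_simp <;> ring
  obtain ⟨M, hM⟩ : ∃ M : Fin 2 → Fin 2 → ℂ, M = ![![a / l, -(a / l)], ![1, 1]] := ⟨_, rfl⟩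
  obtain ⟨N, hN⟩ : ∃ N : Fin 2 → Fin 2 → ℂ,
    N = ![![l / (2 * a), 1 / 2], ![-(l / (2 * a)), 1 / 2]] := ⟨_, rfl⟩
  rw [← hM, ← hN] at hI
  have m00 : M 0 0 = a / l := by rw [hM]; rfl
  have m01 : M 0 1 = -(a / l) := by rw [hM]; rfl
  have m10 : M 1 0 = 1 := by rw [hM]; rfl
  have m11 : M 1 1 = 1 := by rw [hM]; rfl
  have n00 : N 0 0 = l / (2 * a) := by rw [hN]; rfl
  have n01 : N 0 1 = 1 / 2 := by rw [hN]; rfl
  have n10 : N 1 0 = -(l / (2 * a)) := by rw [hN]; rfl
  have n11 : N 1 1 = 1 / 2 := by rw [hN]; rfl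
  obtain ⟨V, hV⟩ : ∃ V : Fin 2 → MvPolynomial (Fin 2) ℂ, V = ![P, Q] := ⟨_, rfl⟩
  have v0 : V 0 = P := by rw [hV]; rfl
  have v1 : V 1 = Q := by rw [hV]; rfl
  have hNrm : Nrm l (tf p M N V) := by
    apply DIA.core p M N V l _ hI
    · intro i
      fin_cases i
      · simp only [Fin.zero_eta]
        rw [v0, ← ha, eP0, m00, m10]
        field_simp
        ring
      · simp only [Fin.mk_one]
        rw [v1, ← hb, eQ1, m00, m10]
        field_simp
        linear_combination -hl
    · intro i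
      fin_cases i
      · simp only [Fin.zero_eta]
        rw [v0, ← ha, eP0, m01, m11]
        field_simp
        ring
      · simp only [Fin.mk_one]
        rw [v1, ← hb, eQ1, m01, m11]
        field_simp
        linear_combination hl
    · intro i
      fin_cases i
      · simp only [Fin.zero_eta]
        rw [v0, hP]
      · simp only [Fin.mk_one]
        rw [v1, eQ]
  have hsw : ∀ F, sw (shf p M F) = shf p M (sg F) :=
    sw_shf p M hp (by rw [m01, m00]) (by rw [m11, m10])
  have hneg : shf p M (-Q) = -shf p M Q := by simp [shf]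
  have w0 : tf p M N V 0 = C (l / (2 * a)) * shf p M P + C (1 / 2) * shf p M Q := by
    simp only [tf]
    rw [n00, n01, v0, v1]
  have w1 : tf p M N V 1 = -(C (l / (2 * a)) * shf p M P) + C (1 / 2) * shf p M Q := by
    simp only [tf]
    rw [n10, n11, v0, v1, C_neg, neg_mul]
  have s0 : sw (tf p M N V 0) = -tf p M N V 1 := by
    rw [w0, w1, sw_add, sw_mul, sw_mul, sw_C, sw_C, hsw, hsw, hRP, hRQ, hneg]
    ring
  have s1 : sw (tf p M N V 1) = -tf p M N V 0 := by
    have hn : sw (-(C (l / (2 * a)) * shf p M P)) = -sw (C (l / (2 * a)) * shf p M P) := by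
      simp [sw]
    rw [w0, w1, sw_add, hn, sw_mul, sw_mul, sw_C, sw_C, hsw, hsw, hRP, hRQ, hneg]
    ring
  have hA : CaseA (tf p M N V) := h1 l _ hl0 hNrm s0 s1
  have hC : HasCenterAt (tf p M N V 0) (tf p M N V 1) 0 := h2 l _ hl0 hNrm hA
  have hfin := (h3 p M N V hI).1 hC
  rw [v0, v1] at hfin
  exact hfin

end Pool.Agent.N46.RV
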