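import Mathlib
import Pool.Agent.N46.RV.Stm
import Pool.Agent.N46.CS.REC

/-!
# A swap-reversible normalized field has a formal first integral (RFI)

Project RV (helper46); this file by helper280.
-/

set_option autoImplicit false

namespace Pool.Agent.N46.RV

open MvPolynomial
open Pool.Agent.N46.CS

namespace RFI

/-- the exchange of the indices -/
def sx : Fin 2 → Fin 2 := ![1, 0]

theorem sx_sx (i : Fin 2) : sx (sx i) = i := by
  fin_cases i <;> rfl

theorem sx_inj : Function.Injective sx := fun i j h => by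
  rw [← sx_sx i, h, sx_sx]

theorem sw_eq (P : MvPolynomial (Fin 2) ℂ) : sw P = rename sx P := by
  unfold sw
  have h : (![X 1, X 0] : Fin 2 → MvPolynomial (Fin 2) ℂ) = X ∘ sx := by
    funext i
    fin_cases i <;> rfl
  rw [h]
  have h2 : bind₁ (X ∘ sx : Fin 2 → MvPolynomial (Fin 2) ℂ) = rename sx := by
    refine algHom_ext fun i => ?_
    rw [bind₁_X_right, rename_X, Function.comp_apply]
  rw [h2]

theorem sw_add (P Q : MvPolynomial (Fin 2) ℂ) : sw (P + Q) = sw P + sw Q := by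
  rw [sw_eq, sw_eq, sw_eq, map_add]

theorem sw_mul (P Q : MvPolynomial (Fin 2) ℂ) : sw (P * Q) = sw P * sw Q := by
  rw [sw_eq, sw_eq, sw_eq, map_mul]

theorem sw_pderiv (i : Fin 2) (P : MvPolynomial (Fin 2) ℂ) :
    sw (pderiv i P) = pderiv (sx i) (sw P) := by
  rw [sw_eq, sw_eq, pderiv_rename sx_inj]

/-- the exchange of the exponents -/
noncomputable def se (e : Fin 2 →₀ ℕ) : Fin 2 →₀ ℕ := Finsupp.mapDomain sx e

theorem se_apply (e : Fin 2 →₀ ℕ) (i : Fin 2) : se e (sx i) = e i :=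
  Finsupp.mapDomain_apply sx_inj e i

theorem se_zero (e : Fin 2 →₀ ℕ) : se e 0 = e 1 := se_apply e 1

theorem se_one (e : Fin 2 →₀ ℕ) : se e 1 = e 0 := se_apply e 0

theorem se_se (e : Fin 2 →₀ ℕ) : se (se e) = e := by
  ext i
  fin_cases i
  · exact (se_zero _).trans (se_one e)
  · exact (se_one _).trans (se_zero e)

theorem coeff_sw (P : MvPolynomial (Fin 2) ℂ) (e : Fin 2 →₀ ℕ) :
    coeff (se e) (sw P) = coeff e P := by
  rw [sw_eq]
  exact coeff_rename_mapDomain sx sx_inj P e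

theorem sw_lie {V : Fin 2 → MvPolynomial (Fin 2) ℂ} (h0 : sw (V 0) = -V 1)
    (h1 : sw (V 1) = -V 0) {F : MvPolynomial (Fin 2) ℂ} (hF : sw F = F) :
    sw (lie V F) = -lie V F := by
  unfold lie
  rw [sw_add, sw_mul, sw_mul, sw_pderiv, sw_pderiv, h0, h1, hF]
  change -V 1 * pderiv 1 F + -V 0 * pderiv 0 F = _
  ring

theorem anti {H : MvPolynomial (Fin 2) ℂ} (hH : sw H = -H) (e : Fin 2 →₀ ℕ) :
    coeff (se e) H = -coeff e H := by
  have h := coeff_sw H e
  rw [hH, coeff_neg] at h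
  rw [← h, neg_neg]

theorem anti_diag {H : MvPolynomial (Fin 2) ℂ} (hH : sw H = -H) (e : Fin 2 →₀ ℕ)
    (he : e 0 = e 1) : coeff e H = 0 := by
  have h1 : se e = e := by
    ext i
    fin_cases i
    · exact (se_zero e).trans he.symm
    · exact (se_one e).trans he
  have h2 := anti hH e
  rw [h1] at h2
  have h3 : (2 : ℂ) * coeff e H = 0 := by linear_combination h2
  rcases mul_eq_zero.1 h3 with h | h
  · norm_num at h
  · exact h

theorem sw_ext {P Q : MvPolynomial (Fin 2) ℂ} (h : ∀ e, coeff e P = coeff (se e) Q) :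
    sw P = Q := by
  ext e
  have h1 := coeff_sw P (se e)
  rw [se_se] at h1
  rw [h1, h, se_se]

theorem step {l : ℂ} (hl : l ≠ 0) {V : Fin 2 → MvPolynomial (Fin 2) ℂ} (hV : Nrm l V)
    (h0 : sw (V 0) = -V 1) (h1 : sw (V 1) = -V 0)
    (n : ℕ) (hn : 3 ≤ n) (F : MvPolynomial (Fin 2) ℂ) (hF : IsXY F) (hs : sw F = F)
    (hL : Van n (lie V F)) :
    ∃ F : MvPolynomial (Fin 2) ℂ, IsXY F ∧ sw F = F ∧ Van (n + 1) (lie V F) := by
  classical
  let φ : (Fin 2 →₀ ℕ) → ℂ := fun e => if e 0 + e 1 = n ∧ e 0 ≠ e 1 then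
    -(l⁻¹ * ((e 0 : ℂ) - (e 1 : ℂ))⁻¹) else 0
  let G := REC.tw φ (lie V F)
  have hG : Van n G := by
    intro e he
    rw [REC.coeff_tw]
    simp only [φ]
    rw [if_neg (by omega), zero_mul]
  have hG' : Van (n - 1 + 1) G := by
    rw [show n - 1 + 1 = n by omega]
    exact hG
  have hXY : IsXY (F + G) := by
    have h1 : F + G - X 0 * X 1 = F - X 0 * X 1 + G := by ring
    unfold IsXY
    rw [h1]
    exact REC.van_add hF (REC.van_mono hn hG)
  have hφ : ∀ e, φ (se e) = -φ e := by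
    intro e
    simp only [φ, se_zero, se_one]
    by_cases h : e 0 + e 1 = n ∧ e 0 ≠ e 1
    · rw [if_pos h, if_pos ⟨by omega, fun h2 => h.2 h2.symm⟩]
      have h3 : ((e 1 : ℂ) - (e 0 : ℂ)) = -((e 0 : ℂ) - (e 1 : ℂ)) := by ring
      rw [h3, inv_neg]
      ring
    · rw [if_neg h, if_neg (fun h2 => h ⟨by omega, fun h3 => h2.2 h3.symm⟩), neg_zero]
  have hsG : sw G = G := by
    refine sw_ext fun e => ?_
    rw [REC.coeff_tw, REC.coeff_tw, hφ, anti (sw_lie h0 h1 hs)]
    ring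
  have hsum : sw (F + G) = F + G := by rw [sw_add, hs, hsG]
  refine ⟨F + G, hXY, hsum, fun e he => ?_⟩
  by_cases hd : e 0 = e 1
  · exact anti_diag (sw_lie h0 h1 hsum) e hd
  · rw [REC.lie_add, coeff_add, REC.coeff_lie hV hG' e (by omega)]
    rcases Nat.lt_or_ge (e 0 + e 1) n with h2 | h2
    · rw [hL e h2, hG e h2, mul_zero, add_zero]
    · have h3 : e 0 + e 1 = n := by omega
      rw [REC.coeff_tw]
      simp only [φ]
      rw [if_pos ⟨h3, hd⟩]
      have h4 : ((e 0 : ℂ) - (e 1 : ℂ)) ≠ 0 := by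
        rw [sub_ne_zero]
        exact_mod_cast hd
      field_simp
      ring

end RFI

open RFI in
/-- RFI: a swap-reversible normalized field has a formal first integral. -/
theorem t_RFI : S_RFI := by
  intro l V hl hV h0 h1
  have key : ∀ k : ℕ, ∃ F : MvPolynomial (Fin 2) ℂ, IsXY F ∧ sw F = F ∧
      Van (k + 3) (lie V F) := by
    intro k
    induction k with
    | zero =>
      refine ⟨X 0 * X 1, ?_, ?_, REC.base hV⟩
      · unfold IsXY
        rw [sub_self]
        intro e _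
        exact coeff_zero e
      · rw [sw_eq, map_mul, rename_X, rename_X]
        change X 1 * X 0 = _
        ring
    | succ k ih =>
      obtain ⟨F, hF, hs, hL⟩ := ih
      exact step hl hV h0 h1 (k + 3) (by omega) F hF hs hL
  intro n
  obtain ⟨F, hF, -, hL⟩ := key n
  exact ⟨F, hF, REC.van_mono (by omega) hL⟩

end Pool.Agent.N46.RV
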