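import Mathlib
import Pool.Agent.N46.RV.Stm

set_option autoImplicit false

/-!
# The reversible forms form an irreducible set (RIR), by helper46
-/

namespace Pool.Agent.N46.RV

open MvPolynomial Filter Topology
open Pool.Agent.Y215.CC Pool.Agent.N46.CS
open scoped LinearAlgebra.Projectivization

namespace RIR

/-- the path from `w₁` to `w₂` -/
noncomputable def pth {d : ℕ} (w₁ w₂ : Frm d) : Fin 2 × Ex d → Polynomial ℂ :=
  fun i => Polynomial.C (w₁ i) + Polynomial.X * Polynomial.C (w₂ i - w₁ i)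

lemma pth_eval {d : ℕ} (w₁ w₂ : Frm d) (t : ℂ) :
    (fun i => (pth w₁ w₂ i).eval t) = w₁ + t • (w₂ - w₁) := by
  funext i
  simp [pth]

lemma poly_add {d : ℕ} (a b : Ex d → ℂ) : poly (a + b) = poly a + poly b := by
  simp [poly, ← Finset.sum_add_distrib, add_mul]

lemma poly_smul {d : ℕ} (t : ℂ) (a : Ex d → ℂ) : poly (t • a) = C t * poly a := by
  simp only [poly, Finset.mul_sum]
  refine Finset.sum_congr rfl fun e _ => ?_
  simp only [Pi.smul_apply, smul_eq_mul, C_mul]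
  ring

lemma fP_path {d : ℕ} (w₁ w₂ : Frm d) (t : ℂ) :
    fP (w₁ + t • (w₂ - w₁)) = fP w₁ + C t * (fP w₂ - fP w₁) := by
  have h : (fun e => (w₁ + t • (w₂ - w₁)) (0, e)) =
      (fun e => w₁ (0, e)) + t • ((fun e => w₂ (0, e)) + (-1 : ℂ) • fun e => w₁ (0, e)) := by
    funext e
    simp
    ring
  rw [fP, h, poly_add, poly_smul, poly_add, poly_smul]
  simp only [fP, C_neg, C_1]
  ring

lemma fQ_path {d : ℕ} (w₁ w₂ : Frm d) (t : ℂ) :
    fQ (w₁ + t • (w₂ - w₁)) = fQ w₁ + C t * (fQ w₂ - fQ w₁) := by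
  have h : (fun e => (w₁ + t • (w₂ - w₁)) (1, e)) =
      (fun e => w₁ (1, e)) + t • ((fun e => w₂ (1, e)) + (-1 : ℂ) • fun e => w₁ (1, e)) := by
    funext e
    simp
    ring
  rw [fQ, h, poly_add, poly_smul, poly_add, poly_smul]
  simp only [fQ, C_neg, C_1]
  ring

lemma rev_path {d : ℕ} {w₁ w₂ : Frm d} (h1 : Rev (fP w₁) (fQ w₁)) (h2 : Rev (fP w₂) (fQ w₂))
    (t : ℂ) : Rev (fP (w₁ + t • (w₂ - w₁))) (fQ (w₁ + t • (w₂ - w₁))) := by
  rw [fP_path, fQ_path]
  obtain ⟨a1, b1⟩ := h1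
  obtain ⟨a2, b2⟩ := h2
  simp only [sg] at a1 b1 a2 b2
  constructor
  · simp only [sg, map_add, map_mul, map_sub, a1, a2, bind₁_C_right]
  · simp only [sg, map_add, map_mul, map_sub, b1, b2, bind₁_C_right]
    ring

lemma fin_zero {d : ℕ} (w w₁ : Frm d) (h : w₁ ≠ 0) : {ε : ℂ | w₁ + ε • (w - w₁) = 0}.Finite := by
  obtain ⟨i, hi⟩ := Function.ne_iff.1 h
  have hp : pth w₁ w i ≠ 0 := by
    intro h0
    have h1 : (pth w₁ w i).eval 0 = 0 := by rw [h0, Polynomial.eval_zero]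
    apply hi
    simpa [pth] using h1
  refine (Polynomial.finite_setOfPred_isRoot hp).subset fun ε hε => ?_
  have h2 := congrFun (pth_eval w₁ w ε) i
  have h3 : w₁ + ε • (w - w₁) = 0 := hε
  rw [h3] at h2
  exact h2

end RIR

open RIR in
theorem t_RIR : S_RIR := by
  intro d
  refine ⟨?_, ?_⟩
  · have hne : enc d (1 : MvPolynomial (Fin 2) ℂ) 0 ≠ 0 := by
      intro h
      have h1 : fP (enc d (1 : MvPolynomial (Fin 2) ℂ) 0) = 1 := fP_enc _ _ (by simp)
      have h2 : fP (0 : Frm d) = 0 := by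
        simp [fP, poly]
      rw [h, h2] at h1
      exact zero_ne_one h1
    refine ⟨Projectivization.mk ℂ (enc d (1 : MvPolynomial (Fin 2) ℂ) 0) hne, _, hne, rfl, ?_⟩
    rw [fP_enc _ _ (by simp), fQ_enc _ _ (by simp)]
    constructor <;> simp [sg]
  · rw [isPreirreducible_iff_isClosed_union_isClosed]
    intro A B hA hB hAB
    by_contra hcon
    push Not at hcon
    obtain ⟨hnA, hnB⟩ := hcon
    rw [Set.not_subset] at hnA hnB
    obtain ⟨_, ⟨w₁, hw₁, rfl, hr1⟩, hx1⟩ := hnA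
    obtain ⟨_, ⟨w₂, hw₂, rfl, hr2⟩, hx2⟩ := hnB
    set TA : Set ℂ := {t | ∃ h : (fun i => (pth w₁ w₂ i).eval t) ≠ 0,
      Projectivization.mk ℂ _ h ∈ A} with hTA
    set TB : Set ℂ := {t | ∃ h : (fun i => (pth w₁ w₂ i).eval t) ≠ 0,
      Projectivization.mk ℂ _ h ∈ B} with hTB
    have hcov : ({ε : ℂ | w₁ + ε • (w₂ - w₁) = 0}ᶜ : Set ℂ) ⊆ TA ∪ TB := by
      intro t ht
      have hne : (fun i => (pth w₁ w₂ i).eval t) ≠ 0 := by
        rw [pth_eval]
        exact ht
      have hmem : Projectivization.mk ℂ _ hne ∈ YY d := by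
        refine ⟨w₁ + t • (w₂ - w₁), ht, ?_, rev_path hr1 hr2 t⟩
        congr 1
        exact pth_eval w₁ w₂ t
      rcases hAB hmem with h | h
      · exact Or.inl ⟨hne, h⟩
      · exact Or.inr ⟨hne, h⟩
    have hinf : (TA ∪ TB).Infinite := (fin_zero w₂ w₁ hw₁).infinite_compl.mono hcov
    rcases Set.infinite_union.1 hinf with h | h
    · apply hx1
      have h0 : (fun i => (pth w₁ w₂ i).eval 0) = w₁ := by
        rw [pth_eval, zero_smul, add_zero]
      have key := path_closed hA (pth w₁ w₂) TA h (fun t ht => ht) 0 (by rw [h0]; exact hw₁)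
      have e : Projectivization.mk ℂ w₁ hw₁ = Projectivization.mk ℂ _
          (show (fun i => (pth w₁ w₂ i).eval 0) ≠ 0 by rw [h0]; exact hw₁) := by
        congr 1
        exact h0.symm
      rw [e]
      exact key
    · apply hx2
      have h0 : (fun i => (pth w₁ w₂ i).eval 1) = w₂ := by
        rw [pth_eval, one_smul]
        abel
      have key := path_closed hB (pth w₁ w₂) TB h (fun t ht => ht) 1 (by rw [h0]; exact hw₂)
      have e : Projectivization.mk ℂ w₂ hw₂ = Projectivization.mk ℂ _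
          (show (fun i => (pth w₁ w₂ i).eval 1) ≠ 0 by rw [h0]; exact hw₂) := by
        congr 1
        exact h0.symm
      rw [e]
      exact key

end Pool.Agent.N46.RV
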