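import Mathlib
import Pool.Agent.N46.RV.Stm

set_option autoImplicit false

/-!
# RPT: persistence of the center along a line of reversible forms
-/

namespace Pool.Agent.N46.RV

open MvPolynomial Filter Topology
open Pool.Agent.Y215.CC Pool.Agent.N46.CS

namespace RPT

theorem fP_line {d : ℕ} (w w₁ : Frm d) (ε : ℂ) :
    fP (w₁ + ε • (w - w₁)) = fP w₁ + C ε * (fP w - fP w₁) := by
  simp only [fP, poly, Pi.add_apply, Pi.smul_apply, Pi.sub_apply, smul_eq_mul, map_add, map_mul,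
    map_sub]
  rw [← Finset.sum_sub_distrib, Finset.mul_sum, ← Finset.sum_add_distrib]
  exact Finset.sum_congr rfl fun e _ => by ring

theorem fQ_line {d : ℕ} (w w₁ : Frm d) (ε : ℂ) :
    fQ (w₁ + ε • (w - w₁)) = fQ w₁ + C ε * (fQ w - fQ w₁) := by
  simp only [fQ, poly, Pi.add_apply, Pi.smul_apply, Pi.sub_apply, smul_eq_mul, map_add, map_mul,
    map_sub]
  rw [← Finset.sum_sub_distrib, Finset.mul_sum, ← Finset.sum_add_distrib]
  exact Finset.sum_congr rfl fun e _ => by ring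

theorem rev_line {d : ℕ} {w w₁ : Frm d} (h : Rev (fP w) (fQ w)) (h₁ : Rev (fP w₁) (fQ w₁)) (ε : ℂ) :
    Rev (fP (w₁ + ε • (w - w₁))) (fQ (w₁ + ε • (w - w₁))) := by
  obtain ⟨hP, hQ⟩ := h
  obtain ⟨hP1, hQ1⟩ := h₁
  unfold sg at hP hQ hP1 hQ1
  constructor
  · rw [fP_line, sg, map_add, map_mul, map_sub, hP, hP1, bind₁_C_right]
  · rw [fQ_line, sg, map_add, map_mul, map_sub, hQ, hQ1, bind₁_C_right]
    ring

theorem eval_sg (q : Fin 2 → ℂ) (G : MvPolynomial (Fin 2) ℂ) :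
    eval q (sg G) = eval ![-q 0, q 1] G := by
  unfold sg
  induction G using MvPolynomial.induction_on with
  | C a => simp
  | add p r hp hr => rw [map_add, map_add, map_add, hp, hr]
  | mul_X p i hp =>
    rw [map_mul, map_mul, map_mul, hp, bind₁_X_right, eval_X]
    congr 1
    fin_cases i <;> simp

/-- the reflection -/
def rf (q : Fin 2 → ℂ) : Fin 2 → ℂ := ![-q 0, q 1]

theorem rf_zero : rf 0 = 0 := by
  funext i
  fin_cases i <;> simp [rf]

theorem continuous_rf : Continuous rf := by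
  refine continuous_pi fun i => ?_
  fin_cases i
  · exact (continuous_apply 0).neg
  · exact continuous_apply 1

theorem sng_rf {d : ℕ} {w : Frm d} (h : Rev (fP w) (fQ w)) {q : Fin 2 → ℂ} (hq : Sng w q) :
    Sng w (rf q) := by
  obtain ⟨hP, hQ⟩ := h
  constructor
  · have := eval_sg q (fP w)
    rw [hP, hq.1] at this
    exact this.symm
  · have := eval_sg q (fQ w)
    rw [hQ, map_neg, hq.2, neg_zero] at this
    exact this.symm

theorem cont_eval {q : ℂ → (Fin 2 → ℂ)} (hq : ContinuousAt q 0) (P : MvPolynomial (Fin 2) ℂ) :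
    ContinuousAt (fun ε => eval (q ε) P) 0 :=
  (MvPolynomial.continuous_eval P).continuousAt.comp hq

end RPT

open RPT

theorem t_RPT (h1 : S_RCN) (h2 : S_EXU) : S_RPT := by
  intro d _ w w₁ hw hw1 hs hdet
  set c : ℂ → Frm d := fun ε => w₁ + ε • (w - w₁) with hc
  have hca : AnalyticAt ℂ c 0 := by
    rw [hc]
    exact analyticAt_const.add (analyticAt_id.smul analyticAt_const)
  have hc0 : c 0 = w₁ := by simp [hc]
  obtain ⟨q, hqa, hq0, hsng, huniq⟩ := h2 d w₁ 0 hs hdet c hca hc0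
  have hqc : ContinuousAt q 0 := hqa.continuousAt
  have hrev : ∀ ε, Rev (fP (c ε)) (fQ (c ε)) := fun ε => rev_line hw hw1 ε
  have htend : Tendsto (fun ε : ℂ => (ε, rf (q ε))) (𝓝 0) (𝓝 ((0 : ℂ), (0 : Fin 2 → ℂ))) := by
    have h3 : Tendsto (fun ε : ℂ => rf (q ε)) (𝓝 0) (𝓝 (rf (q 0))) :=
      (continuous_rf.continuousAt.comp hqc : ContinuousAt (fun ε => rf (q ε)) 0)
    rw [hq0, rf_zero] at h3
    exact tendsto_id.prodMk_nhds h3
  have huniq' := htend.eventually huniq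
  -- the determinant
  have hdetc : ContinuousAt (fun ε => eval (q ε) (pderiv 0 (fP (c ε)) * pderiv 1 (fQ (c ε)) -
      pderiv 1 (fP (c ε)) * pderiv 0 (fQ (c ε)))) 0 := by
    have hP : ∀ (i : Fin 2) (ε : ℂ), eval (q ε) (pderiv i (fP (c ε))) =
        eval (q ε) (pderiv i (fP w₁)) + ε * eval (q ε) (pderiv i (fP w - fP w₁)) := by
      intro i ε
      simp only [hc]
      rw [fP_line, map_add, Derivation.leibniz, pderiv_C, smul_zero, add_zero, map_add,
        smul_eq_mul, map_mul, eval_C]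
    have hQ : ∀ (i : Fin 2) (ε : ℂ), eval (q ε) (pderiv i (fQ (c ε))) =
        eval (q ε) (pderiv i (fQ w₁)) + ε * eval (q ε) (pderiv i (fQ w - fQ w₁)) := by
      intro i ε
      simp only [hc]
      rw [fQ_line, map_add, Derivation.leibniz, pderiv_C, smul_zero, add_zero, map_add,
        smul_eq_mul, map_mul, eval_C]
    have he : (fun ε => eval (q ε) (pderiv 0 (fP (c ε)) * pderiv 1 (fQ (c ε)) -
        pderiv 1 (fP (c ε)) * pderiv 0 (fQ (c ε)))) = fun ε =>
        (eval (q ε) (pderiv 0 (fP w₁)) + ε * eval (q ε) (pderiv 0 (fP w - fP w₁))) *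
          (eval (q ε) (pderiv 1 (fQ w₁)) + ε * eval (q ε) (pderiv 1 (fQ w - fQ w₁))) -
        (eval (q ε) (pderiv 1 (fP w₁)) + ε * eval (q ε) (pderiv 1 (fP w - fP w₁))) *
          (eval (q ε) (pderiv 0 (fQ w₁)) + ε * eval (q ε) (pderiv 0 (fQ w - fQ w₁))) := by
      funext ε
      rw [map_sub, map_mul, map_mul, hP, hP, hQ, hQ]
    rw [he]
    have hl : ∀ P P' : MvPolynomial (Fin 2) ℂ,
        ContinuousAt (fun ε => eval (q ε) P + ε * eval (q ε) P') 0 := fun P P' =>
      (cont_eval hqc P).add (continuousAt_id.mul (cont_eval hqc P'))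
    exact ((hl _ _).mul (hl _ _)).sub ((hl _ _).mul (hl _ _))
  have hne := hdetc.eventually_ne (y := 0) (by
    show eval (q 0) (pderiv 0 (fP (c 0)) * pderiv 1 (fQ (c 0)) -
      pderiv 1 (fP (c 0)) * pderiv 0 (fQ (c 0))) ≠ 0
    rw [hc0, hq0]
    exact hdet)
  filter_upwards [hsng, huniq', hne] with ε e1 e2 e3
  refine ⟨q ε, h1 _ _ _ (hrev ε) ?_ e1.1 e3⟩
  have h4 := e2 (sng_rf (hrev ε) e1)
  have h5 : -q ε 0 = q ε 0 := congrFun h4 0
  have h6 : (2 : ℂ) * q ε 0 = 0 := by linear_combination -h5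
  exact (mul_eq_zero.1 h6).resolve_left two_ne_zero

end Pool.Agent.N46.RV
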