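import Mathlib
import Pool.Agent.N46.RV.Stm

set_option autoImplicit false
set_option linter.unusedSectionVars false

/-!
# The forms without integrating factor form an open set (leaf ZOP of project RV)

Worker: helper169 (following `Pool/Agent/N46/CS/FOP.lean` of helper195).
-/

namespace Pool.Agent.N46.RV.ZOP_

open MvPolynomial
open Pool.Agent.Y215.CC
open scoped LinearAlgebra.Projectivization

/-! ### injective members of a linear family of linear maps -/

section gen

variable {ι κ ν : Type} [Fintype ι] [DecidableEq ι] [Fintype κ] [DecidableEq κ] [Fintype ν]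
  [DecidableEq ν] (T : (ι → ℂ) →ₗ[ℂ] (κ → ℂ) →ₗ[ℂ] (ν → ℂ))

/-- the generic matrix -/
noncomputable def Lm : Matrix ν κ (MvPolynomial ι ℂ) :=
  fun m e => ∑ j : ι, C (LinearMap.toMatrix' (T fun i => if j = i then 1 else 0) m e) * X j

lemma Lm_eval (w : ι → ℂ) (m : ν) (e : κ) :
    eval w (Lm T m e) = LinearMap.toMatrix' (T w) m e := by
  have h1 := T.pi_apply_eq_sum_univ w
  rw [h1, map_sum, Matrix.sum_apply, Lm, map_sum]
  refine Finset.sum_congr rfl fun j _ => ?_
  rw [map_mul, eval_C, eval_X, map_smul, Matrix.smul_apply, smul_eq_mul, mul_comm]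

lemma Lm_hom (m : ν) (e : κ) : (Lm T m e).IsHomogeneous 1 := by
  unfold Lm
  exact IsHomogeneous.sum _ _ _ fun j _ => isHomogeneous_C_mul_X _ _

/-- the polynomial attached to a matrix `B` -/
noncomputable def DB (B : Matrix κ ν ℂ) : MvPolynomial ι ℂ :=
  (B.map (C : ℂ → MvPolynomial ι ℂ) * Lm T).det

lemma eval_DB (w : ι → ℂ) (B : Matrix κ ν ℂ) :
    eval w (DB T B) = (B * LinearMap.toMatrix' (T w)).det := by
  unfold DB
  rw [RingHom.map_det]
  congr 1
  ext i j
  rw [RingHom.mapMatrix_apply, Matrix.map_apply, Matrix.mul_apply, Matrix.mul_apply, map_sum]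
  apply Finset.sum_congr rfl
  intro m _
  rw [map_mul, Matrix.map_apply, eval_C, Lm_eval]

lemma hom_DB (B : Matrix κ ν ℂ) : ∃ m, (DB T B).IsHomogeneous m := by
  have hent : ∀ i j, ((B.map (C : ℂ → MvPolynomial ι ℂ) * Lm T) i j).IsHomogeneous 1 := by
    intro i j
    rw [Matrix.mul_apply]
    apply IsHomogeneous.sum
    intro m _
    rw [Matrix.map_apply]
    have := (isHomogeneous_C ι (B i m)).mul (Lm_hom T m j)
    rw [zero_add] at this
    exact this
  refine ⟨∑ i : κ, 1, ?_⟩
  unfold DB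
  rw [Matrix.det_apply]
  apply IsHomogeneous.sum
  intro σ _
  have h1 : (∏ i, (B.map (C : ℂ → MvPolynomial ι ℂ) * Lm T) (σ i) i).IsHomogeneous
      (∑ i : κ, 1) := by
    apply IsHomogeneous.prod
    intro i _
    exact hent (σ i) i
  rcases Int.units_eq_one_or (Equiv.Perm.sign σ) with h | h
  · rw [h, one_smul]
    exact h1
  · rw [h, Units.neg_smul, one_smul]
    exact h1.neg

lemma inj_iff_DB (w : ι → ℂ) : Function.Injective (T w) ↔ ∃ B, eval w (DB T B) ≠ 0 := by
  constructor
  · intro h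
    have hker : LinearMap.ker (T w) = ⊥ := LinearMap.ker_eq_bot.2 h
    obtain ⟨g, hg⟩ := (T w).exists_leftInverse_of_injective hker
    refine ⟨LinearMap.toMatrix' g, ?_⟩
    rw [eval_DB]
    have h1 : LinearMap.toMatrix' g * LinearMap.toMatrix' (T w) = 1 := by
      have h2 := congrArg LinearMap.toMatrix' hg
      rw [LinearMap.toMatrix'_comp, LinearMap.toMatrix'_id] at h2
      exact h2
    rw [h1, Matrix.det_one]
    exact one_ne_zero
  · rintro ⟨B, hB⟩
    rw [← LinearMap.ker_eq_bot, LinearMap.ker_eq_bot']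
    intro v hv
    rw [eval_DB] at hB
    apply Matrix.eq_zero_of_mulVec_eq_zero hB
    rw [← Matrix.mulVec_mulVec]
    have h3 : (LinearMap.toMatrix' (T w)).mulVec v = 0 := by
      rw [← Matrix.toLin'_apply, Matrix.toLin'_toMatrix', hv]
    rw [h3, Matrix.mulVec_zero]

/-- the classes of the parameters with an injective map -/
def IO : Set (ℙ ℂ (ι → ℂ)) :=
  {x | ∃ (w : ι → ℂ) (hw : w ≠ 0), x = Projectivization.mk ℂ w hw ∧ Function.Injective (T w)}

lemma mem_IO (v : ι → ℂ) (hv : v ≠ 0) :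
    Projectivization.mk ℂ v hv ∈ IO T ↔ Function.Injective (T v) := by
  constructor
  · rintro ⟨w, hw, h1, h2⟩
    rw [Projectivization.mk_eq_mk_iff'] at h1
    obtain ⟨a, ha⟩ := h1
    have ha0 : a ≠ 0 := by
      rintro rfl
      rw [zero_smul] at ha
      exact hv ha.symm
    rw [← ha, map_smul]
    intro x y hxy
    rw [LinearMap.smul_apply, LinearMap.smul_apply] at hxy
    exact h2 (smul_right_injective _ ha0 hxy)
  · intro h
    exact ⟨v, hv, rfl, h⟩

lemma open_IO : IsOpen (IO T) := by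
  rw [← isClosed_compl_iff, isClosed_iff]
  refine ⟨Set.range (DB T), ?_, ?_⟩
  · rintro _ ⟨B, rfl⟩
    exact hom_DB T B
  · intro v hv
    rw [Set.mem_compl_iff, mem_IO, inj_iff_DB]
    push Not
    constructor
    · rintro h _ ⟨B, rfl⟩
      exact h B
    · intro h B
      exact h _ ⟨B, rfl⟩

end gen

/-! ### the operator -/

lemma deg_pd (i : Fin 2) (F : MvPolynomial (Fin 2) ℂ) :
    (pderiv i F).totalDegree ≤ F.totalDegree := by
  conv_lhs => rw [F.as_sum, map_sum]
  refine (totalDegree_finsetSum _ _).trans (Finset.sup_le fun s hs => ?_)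
  rw [pderiv_monomial]
  refine (totalDegree_monomial_le _ _).trans ?_
  refine le_trans ?_ (le_totalDegree hs)
  have h1 := deg_mon s
  have h3 : ∀ j, (s - Finsupp.single i 1 : Fin 2 →₀ ℕ) j ≤ s j := by
    intro j
    rw [Finsupp.tsub_apply]
    exact Nat.sub_le _ _
  generalize hs' : (s - Finsupp.single i 1 : Fin 2 →₀ ℕ) = s' at h3 ⊢
  have h2 := deg_mon s'
  have h4 := h3 0
  have h5 := h3 1
  have e1 : (s'.sum fun _ => id) = s' 0 + s' 1 := h2
  have e2 : (s.sum fun _ e => e) = s 0 + s 1 := h1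
  rw [e1, e2]
  omega

lemma poly_add {d : ℕ} (c c' : Ex d → ℂ) : poly (c + c') = poly c + poly c' := by
  simp [poly, add_mul, Finset.sum_add_distrib]

lemma poly_smul {d : ℕ} (a : ℂ) (c : Ex d → ℂ) : poly (a • c) = C a * poly c := by
  simp [poly, Finset.mul_sum, mul_assoc]

lemma fP_add {d : ℕ} (w w' : Frm d) : fP (w + w') = fP w + fP w' := poly_add _ _
lemma fQ_add {d : ℕ} (w w' : Frm d) : fQ (w + w') = fQ w + fQ w' := poly_add _ _
lemma fP_smul {d : ℕ} (a : ℂ) (w : Frm d) : fP (a • w) = C a * fP w := poly_smul _ _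
lemma fQ_smul {d : ℕ} (a : ℂ) (w : Frm d) : fQ (a • w) = C a * fQ w := poly_smul _ _

/-- the operator -/
noncomputable def EE (P Q F : MvPolynomial (Fin 2) ℂ) : MvPolynomial (Fin 2) ℂ :=
  P * pderiv 0 F + Q * pderiv 1 F - (pderiv 0 P + pderiv 1 Q) * F

lemma intF_iff (P Q F : MvPolynomial (Fin 2) ℂ) : IntF P Q F ↔ EE P Q F = 0 := by
  unfold IntF EE
  rw [sub_eq_zero]

lemma deg_EE {d n : ℕ} {P Q F : MvPolynomial (Fin 2) ℂ} (hP : P.totalDegree ≤ d)
    (hQ : Q.totalDegree ≤ d) (hF : F.totalDegree ≤ n) : (EE P Q F).totalDegree ≤ d + n := by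
  have h0 := (deg_pd 0 F).trans hF
  have h1 := (deg_pd 1 F).trans hF
  have h2 := (deg_pd 0 P).trans hP
  have h3 := (deg_pd 1 Q).trans hQ
  refine (totalDegree_sub _ _).trans (max_le ((totalDegree_add _ _).trans (max_le ?_ ?_)) ?_)
  · exact (totalDegree_mul _ _).trans (add_le_add hP h0)
  · exact (totalDegree_mul _ _).trans (add_le_add hQ h1)
  · exact (totalDegree_mul _ _).trans
      (add_le_add ((totalDegree_add _ _).trans (max_le h2 h3)) hF)

/-- the bilinear operator in coordinates -/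
noncomputable def TT (d n : ℕ) : Frm d →ₗ[ℂ] (Ex n → ℂ) →ₗ[ℂ] (Ex (d + n) → ℂ) :=
  LinearMap.mk₂ ℂ (fun w v m => coeff (mon m) (EE (fP w) (fQ w) (poly v)))
    (by
      intro w w' v
      funext m
      rw [Pi.add_apply, ← coeff_add]
      congr 1
      rw [fP_add, fQ_add]
      simp only [EE, map_add]
      ring)
    (by
      intro a w v
      funext m
      rw [Pi.smul_apply, smul_eq_mul, ← coeff_C_mul]
      congr 1
      rw [fP_smul, fQ_smul]
      simp only [EE, Derivation.leibniz, pderiv_C, smul_eq_mul, mul_zero, add_zero]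
      ring)
    (by
      intro w v v'
      funext m
      rw [Pi.add_apply, ← coeff_add]
      congr 1
      rw [poly_add]
      simp only [EE, map_add]
      ring)
    (by
      intro a w v
      funext m
      rw [Pi.smul_apply, smul_eq_mul, ← coeff_C_mul]
      congr 1
      rw [poly_smul]
      simp only [EE, Derivation.leibniz, pderiv_C, smul_eq_mul, mul_zero, add_zero]
      ring)

lemma TT_apply {d n : ℕ} (w : Frm d) (v : Ex n → ℂ) (m : Ex (d + n)) :
    TT d n w v m = coeff (mon m) (EE (fP w) (fQ w) (poly v)) := rfl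

lemma TT_eq_zero {d n : ℕ} (w : Frm d) (v : Ex n → ℂ) :
    TT d n w v = 0 ↔ IntF (fP w) (fQ w) (poly v) := by
  rw [intF_iff]
  constructor
  · intro h
    have hdeg : (EE (fP w) (fQ w) (poly v)).totalDegree ≤ d + n :=
      deg_EE (deg_poly _) (deg_poly _) (deg_poly v)
    rw [← poly_coeff _ hdeg]
    have : (fun e : Ex (d + n) => coeff (mon e) (EE (fP w) (fQ w) (poly v))) = fun _ => 0 := by
      funext e
      exact congrFun h e
    rw [this]
    simp [poly]
  · intro h
    funext m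
    rw [TT_apply, h]
    simp

lemma inj_iff {d n : ℕ} (w : Frm d) :
    Function.Injective (TT d n w) ↔ NoInt n (fP w) (fQ w) := by
  rw [← LinearMap.ker_eq_bot, LinearMap.ker_eq_bot']
  constructor
  · intro h F hF hI
    have h1 := h (fun e => coeff (mon e) F) (by rw [TT_eq_zero, poly_coeff F hF]; exact hI)
    rw [← poly_coeff F hF, h1]
    simp [poly]
  · intro h v hv
    rw [TT_eq_zero] at hv
    have h1 := h _ (deg_poly v) hv
    funext e
    rw [← coeff_poly v e, h1]
    simp

end Pool.Agent.N46.RV.ZOP_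

namespace Pool.Agent.N46.RV

open MvPolynomial
open Pool.Agent.Y215.CC
open scoped LinearAlgebra.Projectivization

theorem t_ZOP : S_ZOP := by
  intro d w hw h
  refine ⟨ZOP_.IO (ZOP_.TT d (d + 1)), ZOP_.open_IO _, ?_, ?_⟩
  · rw [ZOP_.mem_IO, ZOP_.inj_iff]
    exact h
  · rw [Set.disjoint_left]
    rintro x hx ⟨v, hv, rfl, F, hF0, hF1, hF2⟩
    rw [ZOP_.mem_IO, ZOP_.inj_iff] at hx
    exact hF0 (hx F hF1 hF2)

end Pool.Agent.N46.RV
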